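import Pool.Agent.H885.BaseU
import Pool.Agent.H885.UnifT
import Pool.Agent.H885.FewT
import Pool.Graph.R_pool_sql_team_seeded_620a6dc7.Helper880_R3.Res

/-!
# The torsor form of the period conjecture for the fibres near arbitrary central fibres: few exceptional denominators

For `j = 1, …, N` let `X_j → B_j` be a smooth projective family over `ℚ`, `B_j` open in the affine space of **any dimension
`m`**, `0 ∈ B_j(ℚ)`, and let `P_j(x) = C_j Z_j(x)` be the period matrix of (a direct factor of rank `n` of) the cohomology of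
the fibres near `0`; `Z_j` is a fundamental matrix of the Gauss-Manin connection (a matrix of G-functions over `ℚ` in the `m`
variables `x`) and `C_j` is the matrix of the periods of the central fibre. Let `M_0` be another object over `ℚ` with period
matrix `C₀`. For rational points `x_j = a_j / b_j`, `a_j ∈ ℤ^m`, `b_j ∈ ℕ`, let

  `c = C₀ ⊕ C_1 Z_1(x_1) ⊕ … ⊕ C_N Z_N(x_N)`,

the period matrix of `M_0 ⊕ ⨁ M_{x_j}`. Grothendieck's conjecture implies that the torsor of motivic isomorphisms of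
`H_dR` and `H_B` is contained, up to connected components, in all `K`-subtorsors `T` with `c ∈ T`, for all number fields `K`.

The results of this kind in the library are of three types: for almost all points (outside of a set with a power saving, or
of a set of directions of small Hausdorff dimension: `BigMonodromyTorsors`, `WindowsOfFibres`); for all points
`1 / (t - G u)` of each window with at most `trdeg + 1` exceptions, for **one** one-parameter family (`AllFamiliesWindows`,
MP_290158_ag, for relations of bounded degree; `UnboundedProducts`, for torsors and products of an unbounded number of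
fibres); and for all points near a central fibre with few periods compared with the monodromy
(`AllFibresFewCentralPeriods`: the points `1 / t` of one one-parameter family; `AllDirections`, MP_77d3f5_ag: the points
`a / t` of one-parameter families for which bounds for the degrees and heights of all functional relations are given).
Here the theorem holds for all points `a / b` in bases of any dimension, the denominators of which are not close to one of
at most `M ⌊s / (r + 1 - ℓ)⌋` exceptional ones: the number `s` of periods of the central fibres is divided by the codimension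
of the subalgebras of the monodromy algebra. The exceptional denominators do **not** depend on the families, on the central
fibres (as long as the periods are in the same field) and on the Lie algebras, and all constants are uniform in the families,
in the central fibres and in the heights.

**Theorem.** Fix `m, n, N, M, q, D, s, ℓ, e`, the size of `C₀`, and `r ≥ ℓ`. There is `E` such that for all complex
numbers `β_1, …, β_s`, all `H, h, w` and all `b₀ ≥ (2 H (h + w + 2))^E` there are a set `F` of **at most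
`M ⌊s / (r + 1 - ℓ)⌋` exceptional denominators** with the following property. Take

* **all** tuples `b_1, …, b_N` of denominators in the window `[b₀, b₀ + w]`, at most `M` of them different, such that the
  distances of different `b_j` and of the `b_j` from the elements of `F` are larger than `2^(m+1) H (h + 2)`,
* **all** central fibres and objects `M_0` such that, up to one common factor, the entries of `C₀` and `C_1, …, C_N` are
  algebraic (of degree at most `e`) over the field generated by `β_1, …, β_s` and `ℓ` further numbers,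
* **all** families over bases of dimension `m`, that is, all `n × n` systems `T ∂Z_j / ∂x_i = Z_j A_{j i}` of degree at
  most `q`, for which the height of the system and the growth constants of the coefficients and of the denominators of
  `Z_j` and `Z_j⁻¹` are at most `H`,
* **all** numerators `a_j ∈ ℤ^m` with `|a_j| ≤ h`; if `0` is a pole of the system then the line `ℚ a_j` must not be contained
  in the polar locus `T = 0`,
* all Lie algebras `𝔤_1, …, 𝔤_N` which are semisimple (or have only quotients without centre) and have no proper subalgebra of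
  codimension at most `r`, for which `∏ 𝔤_j` consists, for each `β`, of infinitesimal symmetries of the restrictions of the
  `Z_j` with `b_j = β` to the lines `ℚ a_j` (it is sufficient that `∏ exp 𝔤_j` is contained in the differential Galois group
  of these restrictions, the Zariski closure of the monodromy; **no** condition is needed for points with different
  denominators, even if the families are equal),
* **all** number fields `K` with `[K : ℚ] ≤ D` and **all** `K`-subtorsors `T ∋ c` (defined by equations of any degree).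

Then:

1. `T` is stable under `1 × ∏ exp (C_j 𝔤_j C_j⁻¹)`.
2. If the `𝔤_j` contain the Lie algebras of the special isometry groups of forms `B_j` (big monodromy), then `T` is, in the
   torsor of all isomorphisms `x_0 ⊕ ⨁ X_j` which respect the polarisations, the full inverse image of its image under
   `(x_0, det X_1, …, det X_N)` (without the determinants in the alternating case).
3. In the absolute case `M_0 = ℚ(-1)`, `C₀ = 2 π i`, `T` is equal to the torsor `T_pol` of all isomorphisms which respect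
   the polarisations (and determinants) as soon as it is contained in it; so `T_pol` is the torsor of motivic
   isomorphisms, and it is the smallest `K`-subtorsor through `c`.

For the special isometry groups of forms `B` we show that the condition on subalgebras holds if `r ≤ n - 2` (alternating),
`4 r < n` (symmetric) and `2 r + 2 < n` (`B = 0`).

Special cases. (a) `s = 0`: if the periods of the central fibres and of `M_0` are algebraic over a field with `ℓ = r`
generators then there are no exceptions (`F` is empty), uniformly in these fields.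
(b) `ℓ = 0`, `r = 0`: **arbitrary** central fibres and all semisimple monodromy groups. If the field generated by `C₀` and
the `C_j` has transcendence degree `s` then each window contains at most `M s` exceptional denominators, up to their
neighbours; and if the monodromy group is large, for example of type `Sp(n)`, at most `M ⌊s / (n - 1)⌋`. As
`s ≤ dim Sp(n) + 1` for one central fibre and `M_0 = ℚ(-1)`, this is at most `n / 2 + 1` for `M = 1`, `n ≥ 4`; and for fixed
families the windows have the length `b₀ ^ (1 / E) / (2 H) - h - 2`. All hypersurfaces `b F_0 + G = 0` with a fixed smooth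
`F_0` over `ℚ` and bounded integral `G` are examples (for the `G` for which the pencil has big monodromy).
(c) The exceptional set depends only on `β_1, …, β_s` and on the window, not on the families, the central fibres, the points,
the Lie algebras or the fields `K`: take all families, for example the pull backs of a given one under all polynomial maps
of bounded degree and height at most `b₀ ^ (1 / E)`, and all central fibres which are isogenous, or more generally have
periods in the same field.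

Only subtorsors are treated: the Zariski closure of the period point is not contained in any smaller subtorsor. That the
period matrices of families have the form `C Z(x)` with `Z` as above is from the literature and not part of the Lean theorem.
The theorem `AllFibresAnyBase` of an earlier state of this repository is the case `s = 0`, `M = 1`, `w = 0`, `C_j = C`.

Proof (`Pool/Agent/H885`). (i) A linear independence theorem for values of G-functions at `1 / t` (`Gr`, `Sel`, `Lift`) in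
which all constants are explicit powers of the height of the system and no independence of the functions is assumed:
each `ℚ`-linear relation between the values is the specialisation of a relation between the functions. (ii) Galochkin's
condition is automatic with the same constants (`Sys`); restriction to lines (`Line`, `BaseU`). (iii) The values of functions
`f_1, …, f_k` at several points `1 / b_j` of one window are values at one point of the shifted functions
`f_j (x / (1 - g_j x))` (`SysShift`, `DiscS`), and a symmetry of the functions which belong to one denominator is a symmetry of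
all of them together: the shifted functions have their singularities in disjoint discs about the points `g_j`, and
they are continued analytically around one of these discs without changing the other ones (`Blk`, `Joint`, `Joint2`).
(iv) So relations of bounded degree between the values are preserved along curves `exp (t X) Z` (`RelL`, `CurT`, `UnifL`,
`UnifQ`), and in an ultraproduct of sequences of counterexamples there are derivations of `*ℂ` over `*ℚ` which move the values
at each chosen point by an arbitrary element of the Lie algebra and kill the values at all other points. (v) A pigeonhole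
principle: these derivations act on `β_1, …, β_s`, a space of dimension `s`; if `⌊s / (r + 1 - ℓ)⌋ + 1` separated tuples
were exceptional, then for one of them the derivations for this tuple could be corrected by those for the other ones so that
they act on the constants through a space of dimension at most `r` (`CoreP`, `CoreT`, `FewQ`), and then an argument on
subalgebras of codimension at most `r` shows that this tuple is not exceptional (`CoreS`, `UnifT`). The consequences 2 and 3
of 1 are from `Helper880_R3` (`OutC`).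
-/

set_option autoImplicit false

open PowerSeries Filter
open scoped Matrix

namespace Pool.Agent.Results.MP_caab05_ag.FewExceptionalDenominators

section several
variable {n m N : ℕ}

/-- an integer polynomial in `m` variables as a power series with rational coefficients -/
noncomputable def toQ (P : MvPolynomial (Fin m) ℤ) : MvPowerSeries (Fin m) ℚ :=
  ((P.map (Int.castRingHom ℚ) : MvPolynomial (Fin m) ℚ) : MvPowerSeries (Fin m) ℚ)

/-- the partial derivative `∂f / ∂x_i` -/
noncomputable def partialD (i : Fin m) (f : MvPowerSeries (Fin m) ℚ) : MvPowerSeries (Fin m) ℚ :=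
  fun ν => ((ν i : ℚ) + 1) * MvPowerSeries.coeff (ν + Finsupp.single i 1) f

/-- `Z` is an invertible `n × n` matrix of G-functions in `m` variables with rational coefficients, `W = Z⁻¹`, which
solves the system `T ∂Z / ∂x_i = Z A_i`, `i = 1, …, m`. The degrees of `T` and `A_i` are at most `q`; the
absolute values of their coefficients and the growth of the coefficients of `Z` and of the denominators of the
coefficients of `Z` and `W` are bounded by `H`. -/
structure Family (q : ℕ) (H : ℝ) (T : MvPolynomial (Fin m) ℤ) (A : Fin m → Fin n → Fin n → MvPolynomial (Fin m) ℤ)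
    (Z W : Matrix (Fin n) (Fin n) (MvPowerSeries (Fin m) ℚ)) : Prop where
  /-- the degree of `T` -/
  degT : T.totalDegree ≤ q
  /-- the height of `T` -/
  sizeT : ∀ ν, |((T.coeff ν : ℤ) : ℝ)| ≤ H
  /-- the degrees of the `A_i` -/
  degA : ∀ i a b, (A i a b).totalDegree ≤ q
  /-- the heights of the `A_i` -/
  sizeA : ∀ i a b ν, |(((A i a b).coeff ν : ℤ) : ℝ)| ≤ H
  /-- the differential equations -/
  ode : ∀ i a b, toQ T * partialD i (Z a b) = ∑ l, Z a l * toQ (A i l b)
  /-- `W` is the inverse of `Z` -/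
  inv : W * Z = 1
  /-- the growth of the coefficients -/
  size : ∀ a b (ν : Fin m →₀ ℕ), |((MvPowerSeries.coeff ν (Z a b) : ℚ) : ℝ)| ≤ H ^ (∑ i, ν i + 1)
  /-- the growth of the common denominators of the coefficients -/
  den : ∀ k : ℕ, ∃ d : ℕ, 0 < d ∧ (d : ℝ) ≤ H ^ (k + 1) ∧ ∀ a b (ν : Fin m →₀ ℕ), ∑ i, ν i ≤ k →
    (∃ z : ℤ, (d : ℚ) * MvPowerSeries.coeff ν (Z a b) = z) ∧ ∃ z : ℤ, (d : ℚ) * MvPowerSeries.coeff ν (W a b) = z

/-- the power series `f(x a)` in the variable `x`, the restriction of `f` to the line through `0` with direction `a` -/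
noncomputable def restrict (a : Fin m → ℤ) (f : MvPowerSeries (Fin m) ℚ) : PowerSeries ℚ :=
  PowerSeries.mk fun k => ∑ ν ∈ (Finset.univ : Finset (Fin m)).finsuppAntidiag k,
    MvPowerSeries.coeff ν f * ∏ i, (a i : ℚ) ^ ν i

/-- the value `Z(a / b)`, that is, the value of the restriction of `Z` to the line at `x = 1 / b` -/
noncomputable def value (Z : Matrix (Fin n) (Fin n) (MvPowerSeries (Fin m) ℚ)) (a : Fin m → ℤ) (b : ℕ) :
    Matrix (Fin n) (Fin n) ℂ :=
  Matrix.of fun i j => ((∑' k : ℕ, ((coeff k (restrict a (Z i j)) : ℚ) : ℝ) * (1 / (b : ℝ)) ^ k : ℝ) : ℂ)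

/-- the restriction of `Z` to the line with direction `a`, over `ℂ` -/
noncomputable def onLine (a : Fin m → ℤ) (Z : Matrix (Fin n) (Fin n) (MvPowerSeries (Fin m) ℚ)) :
    Matrix (Fin n) (Fin n) (PowerSeries ℂ) :=
  Z.map fun f => PowerSeries.map (algebraMap ℚ ℂ) (restrict a f)

/-- `(X_1, …, X_N)` is an infinitesimal symmetry of the matrices `Y_1, …, Y_N` of power series: for all polynomial relations
`R(x, Y_1(x), …, Y_N(x)) = 0` over `ℂ[x]` the derivative of `R(x, (1 + ε X_1) Y_1(x), …, (1 + ε X_N) Y_N(x))` at `ε = 0` is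
zero. -/
def Symmetry (Y : Fin N → Matrix (Fin n) (Fin n) (PowerSeries ℂ)) (X : Fin N → Matrix (Fin n) (Fin n) ℂ) : Prop :=
  ∀ R : MvPolynomial (Fin N × Fin n × Fin n) (Polynomial ℂ),
    MvPolynomial.aeval (fun σ => Y σ.1 σ.2.1 σ.2.2) R = 0 →
    ∑ σ, MvPolynomial.aeval (fun σ => Y σ.1 σ.2.1 σ.2.2) (MvPolynomial.pderiv σ R) *
      ((X σ.1).map (PowerSeries.C (R := ℂ)) * Y σ.1) σ.2.1 σ.2.2 = 0

end several

section lie
variable {n : ℕ}

/-- `𝔤` is closed under commutators -/
def IsLieAlg (𝔤 : Submodule ℂ (Matrix (Fin n) (Fin n) ℂ)) : Prop := ∀ x ∈ 𝔤, ∀ y ∈ 𝔤, x * y - y * x ∈ 𝔤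

/-- all quotients `𝔤 / I` have trivial centre; semisimple Lie algebras have this property -/
def CentreFree (𝔤 : Submodule ℂ (Matrix (Fin n) (Fin n) ℂ)) : Prop :=
  ∀ I : Submodule ℂ (Matrix (Fin n) (Fin n) ℂ), I ≤ 𝔤 → (∀ x ∈ 𝔤, ∀ y ∈ I, x * y - y * x ∈ I) →
    ∀ x ∈ 𝔤, (∀ y ∈ 𝔤, x * y - y * x ∈ I) → x ∈ I

/-- all proper subalgebras of `𝔤` have codimension larger than `r` -/
def NoSmall (r : ℕ) (𝔤 : Submodule ℂ (Matrix (Fin n) (Fin n) ℂ)) : Prop :=
  ∀ 𝔥 : Submodule ℂ (Matrix (Fin n) (Fin n) ℂ), 𝔥 ≤ 𝔤 → IsLieAlg 𝔥 →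
    Module.finrank ℂ 𝔤 ≤ Module.finrank ℂ 𝔥 + r → 𝔤 ≤ 𝔥

/-- nondegenerate alternating forms -/
def Symplectic (B : Matrix (Fin n) (Fin n) ℂ) : Prop := IsUnit B ∧ Bᵀ = -B

/-- The form is zero, or nondegenerate and alternating, or nondegenerate and symmetric of rank different from `2`. -/
def Classical (B : Matrix (Fin n) (Fin n) ℂ) : Prop := B = 0 ∨ Symplectic B ∨ (IsUnit B ∧ Bᵀ = B ∧ n ≠ 2)

/-- The form is zero and `2 r + 2 < n`, or it is nondegenerate and alternating and `r ≤ n - 2`, or nondegenerate and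
symmetric and `4 r < n`, `n ≠ 2`. -/
def Small (r : ℕ) (B : Matrix (Fin n) (Fin n) ℂ) : Prop :=
  (B = 0 ∧ 2 * r + 2 < n) ∨ (Symplectic B ∧ r + 2 ≤ n) ∨ (IsUnit B ∧ Bᵀ = B ∧ n ≠ 2 ∧ 4 * r < n)

/-- `X` is in the Lie algebra of the group of all matrices of determinant `1` which respect `B` -/
def IsInfinitesimal (B X : Matrix (Fin n) (Fin n) ℂ) : Prop := X.trace = 0 ∧ X * B + B * Xᵀ = 0

/-- `𝔤` is a Lie algebra, all its quotients have trivial centre, and all proper subalgebras have codimension larger than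
`r`; or it is the Lie algebra of the special isometry group of a form for which `Small r B` holds (this case is in fact
contained in the first one, as we show). -/
def Admissible (r : ℕ) (𝔤 : Submodule ℂ (Matrix (Fin n) (Fin n) ℂ)) : Prop :=
  (IsLieAlg 𝔤 ∧ CentreFree 𝔤 ∧ NoSmall r 𝔤) ∨ ∃ B, Small r B ∧ ∀ X, X ∈ 𝔤 ↔ IsInfinitesimal B X

/-- `y` satisfies an equation `P(b, y) = 0` where `P` has rational coefficients and total degree at most `e` and `P(b, Y)` is
not the zero polynomial -/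
def AlgebraicOver (e : ℕ) {s : ℕ} (b : Fin s → ℂ) (y : ℂ) : Prop :=
  ∃ P : MvPolynomial (Option (Fin s)) ℚ, P.totalDegree ≤ e ∧ MvPolynomial.aeval (fun o : Option (Fin s) => o.elim y b) P = 0 ∧
    ∃ y' : ℂ, MvPolynomial.aeval (fun o : Option (Fin s) => o.elim y' b) P ≠ 0

/-- Up to a common factor `κ` the entries of `C₀` and of the `C_j` are algebraic over the field generated by the given numbers
`β_1, …, β_s` and by `ℓ` further numbers, with equations of degree at most `e`. -/
def FewPeriods {r s N : ℕ} (ℓ e : ℕ) (β : Fin s → ℂ) (C₀ : Matrix (Fin r) (Fin r) ℂ) (C : Fin N → Matrix (Fin n) (Fin n) ℂ) :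
    Prop :=
  ∃ (γ : Fin ℓ → ℂ) (κ : ℂ), κ ≠ 0 ∧ (∀ i j, AlgebraicOver e (Fin.append β γ) (κ * C₀ i j)) ∧
    ∀ l i j, AlgebraicOver e (Fin.append β γ) (κ * C l i j)

/-- If up to a common factor the entries of `C₀` and of the `C_j` are algebraic over the field generated by
`β_1, …, β_s, γ_1, …, γ_ℓ` then the condition `FewPeriods ℓ e β` holds for some `e`. -/
theorem fewPeriods_of_isAlgebraic {r s ℓ N : ℕ} {C₀ : Matrix (Fin r) (Fin r) ℂ} {C : Fin N → Matrix (Fin n) (Fin n) ℂ}
    {β : Fin s → ℂ} {γ : Fin ℓ → ℂ} {κ : ℂ} (hκ : κ ≠ 0)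
    (h₀ : ∀ i j, IsAlgebraic (IntermediateField.adjoin ℚ (Set.range (Fin.append β γ))) (κ * C₀ i j))
    (h : ∀ l i j, IsAlgebraic (IntermediateField.adjoin ℚ (Set.range (Fin.append β γ))) (κ * C l i j)) :
    ∃ e, FewPeriods ℓ e β C₀ C := by
  obtain ⟨e, h1, h2⟩ := Pool.Agent.H885.fewT_of_alg h₀ h
  exact ⟨e, γ, κ, hκ, h1, h2⟩

end lie

/-- `T` is (the set of complex points of) a `K`-subtorsor of `GL_B = Iso (M_dR, M_B)`: it is closed under `x y⁻¹ z`, and
it is defined in `GL_B` by polynomials with coefficients in `K`. -/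
def IsSubtorsor (K : Subfield ℂ) {B : Type} [Fintype B] [DecidableEq B] (T : Set (Matrix B B ℂ)) : Prop :=
  (∀ x ∈ T, ∀ y ∈ T, ∀ z ∈ T, x * y⁻¹ * z ∈ T) ∧ ∃ I : Set (MvPolynomial (B × B) K), ∀ x : Matrix B B ℂ, x ∈ T ↔
    IsUnit x ∧ ∀ p ∈ I, MvPolynomial.eval (fun b => x b.1 b.2) (MvPolynomial.map (algebraMap K ℂ) p) = 0

section
variable {n N r : ℕ}

/-- the block matrix `x ⊕ X_1 ⊕ … ⊕ X_N` -/
def total (x : Matrix (Fin r) (Fin r) ℂ) (X : Fin N → Matrix (Fin n) (Fin n) ℂ) :
    Matrix (Fin r ⊕ (Fin n × Fin N)) (Fin r ⊕ (Fin n × Fin N)) ℂ :=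
  Matrix.fromBlocks x 0 0 (Matrix.blockDiagonal X)

/-- the isomorphisms `X_j` respect the polarisations `Q_j` (de Rham) and `B_j` (Betti) up to the factors `μ_j` -/
def Respects (B Q : Fin N → Matrix (Fin n) (Fin n) ℂ) (μ : Fin N → ℂ) (X : Fin N → Matrix (Fin n) (Fin n) ℂ) : Prop :=
  (∀ j, μ j ≠ 0) ∧ ∀ j, X j * Q j * (X j)ᵀ = μ j • B j

/-- The isomorphisms `z ⊕ … ⊕ z ⊕ X_1 ⊕ … ⊕ X_N` of an `r`-fold sum of the object `ℚ(-1)` and of the `M_j` which respect
the polarisations `Q_j` (de Rham) and `B_j` (Betti), with values in `ℚ(-w_j)`, and the identifications of `det M_j` with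
`ℚ(-m_j)` up to a twist (no condition on the determinant is needed if `B_j` is symplectic). -/
def torsorOf (r : ℕ) (B Q : Fin N → Matrix (Fin n) (Fin n) ℂ) (w m : Fin N → ℤ) (δ : Fin N → ℂ) :
    Set (Matrix (Fin r ⊕ (Fin n × Fin N)) (Fin r ⊕ (Fin n × Fin N)) ℂ) :=
  {y | ∃ z : ℂ, z ≠ 0 ∧ ∃ X : Fin N → Matrix (Fin n) (Fin n) ℂ, y = total (z • 1) X ∧
    ∀ j, X j * Q j * (X j)ᵀ = z ^ (w j) • B j ∧ (Symplectic (B j) ∨ (X j).det = δ j * z ^ (m j))}

/-- The conclusion for one tuple of fibres; `C j` is the period matrix of the central fibre and `P j` the period matrix of the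
fibre at the point `x_j`, for the family with number `j`. -/
def Good (D : ℕ) (C₀ : Matrix (Fin r) (Fin r) ℂ) (C : Fin N → Matrix (Fin n) (Fin n) ℂ)
    (𝔤 : Fin N → Submodule ℂ (Matrix (Fin n) (Fin n) ℂ)) (P : Fin N → Matrix (Fin n) (Fin n) ℂ) : Prop :=
  ∀ K : Subfield ℂ, FiniteDimensional ℚ K → Module.finrank ℚ K ≤ D →
  ∀ T : Set (Matrix (Fin r ⊕ (Fin n × Fin N)) (Fin r ⊕ (Fin n × Fin N)) ℂ), IsSubtorsor K T → total C₀ P ∈ T →
  -- 1: stability
  (∀ X : Fin N → Matrix (Fin n) (Fin n) ℂ, (∀ j, X j ∈ 𝔤 j) → ∀ x ∈ T,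
    total 1 (fun j => NormedSpace.exp (C j * X j * (C j)⁻¹)) * x ∈ T) ∧
  -- 2: classical monodromy groups, relative case
  (∀ B : Fin N → Matrix (Fin n) (Fin n) ℂ, (∀ j, Classical (B j)) → (∀ j X, IsInfinitesimal (B j) X → X ∈ 𝔤 j) →
    ∀ (Q : Fin N → Matrix (Fin n) (Fin n) ℂ) (μ : Fin N → ℂ) (x₀ : Matrix (Fin r) (Fin r) ℂ)
      (X Y : Fin N → Matrix (Fin n) (Fin n) ℂ), Respects (fun j => C j * B j * (C j)ᵀ) Q μ X →
      Respects (fun j => C j * B j * (C j)ᵀ) Q μ Y →
      (∀ j, Symplectic (B j) ∨ (X j).det = (Y j).det) → total x₀ X ∈ T → total x₀ Y ∈ T) ∧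
  -- 3: classical monodromy groups, absolute case
  (0 < r → C₀ = (2 * Real.pi * Complex.I : ℂ) • 1 →
    ∀ B : Fin N → Matrix (Fin n) (Fin n) ℂ, (∀ j, Classical (B j)) → (∀ j X, IsInfinitesimal (B j) X → X ∈ 𝔤 j) →
    ∀ (Q : Fin N → Matrix (Fin n) (Fin n) ℂ) (w m : Fin N → ℤ) (δ : Fin N → ℂ),
      T ⊆ torsorOf r (fun j => C j * B j * (C j)ᵀ) Q w m δ → T = torsorOf r (fun j => C j * B j * (C j)ᵀ) Q w m δ)

end

/-- the distance of `b` and `c` is larger than `2^(m+1) H (h + 2)` -/
def Far (m : ℕ) (H : ℝ) (h b c : ℕ) : Prop := 2 ^ (m + 1) * H * ((h : ℝ) + 2) < |(b : ℝ) - c|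

/-- the tuple `b` of denominators is in the window `[b₀, b₀ + w]`, its members are equal or far from each other, and it has
at most `M` different members -/
def Allowed {N : ℕ} (m M : ℕ) (H : ℝ) (h w b₀ : ℕ) (b : Fin N → ℕ) : Prop :=
  (∀ j, b₀ ≤ b j ∧ b j ≤ b₀ + w) ∧ (∀ i j, b i = b j ∨ Far m H h (b i) (b j)) ∧ (Finset.univ.image b).card ≤ M

/-! ## Proofs -/

theorem base_of {m n q : ℕ} {H : ℝ} (hH : 1 ≤ H) {T : MvPolynomial (Fin m) ℤ}
    {A : Fin m → Fin n → Fin n → MvPolynomial (Fin m) ℤ} {Z W : Matrix (Fin n) (Fin n) (MvPowerSeries (Fin m) ℚ)}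
    (h : Family q H T A Z W) :
    Pool.Agent.H885.GBaseU (N := 1) q H T (fun _ => A) (fun _ => Z) (fun _ => W) :=
  ⟨hH, h.degT, h.sizeT, fun _ => h.degA, fun _ => h.sizeA, fun _ => h.ode, fun _ => h.inv, fun _ => h.size, fun k => by
    obtain ⟨d, h1, h2, h3⟩ := h.den k
    exact ⟨d, h1, h2, fun _ => h3⟩⟩

theorem sym_inf {m n N : ℕ} {Z : Fin N → Matrix (Fin n) (Fin n) (MvPowerSeries (Fin m) ℚ)} {a : Fin N → Fin m → ℤ}
    {b : Fin N → ℕ} {β : ℕ} {X : Fin N → Matrix (Fin n) (Fin n) ℂ}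
    (h : Symmetry (fun j => if b j = β then onLine (a j) (Z j) else 1) (fun j => if b j = β then X j else 0)) :
    Pool.Agent.H885.InfT (Pool.Agent.H885.part b (fun j => Pool.Agent.H885.lineM (a j) (Z j)) β)
      (fun j => if b j = β then X j else 0) := by
  have h1 : Pool.Agent.H885.cent (Pool.Agent.H885.part b (fun j => Pool.Agent.H885.lineM (a j) (Z j)) β) =
      fun σ : Fin N × Fin n × Fin n => (if b σ.1 = β then onLine (a σ.1) (Z σ.1) else 1) σ.2.1 σ.2.2 := by
    funext σ
    unfold Pool.Agent.H885.cent Pool.Agent.H885.part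
    by_cases hb : b σ.1 = β
    · rw [if_pos hb, if_pos hb]
      rfl
    · rw [if_neg hb, if_neg hb, Matrix.one_apply, Matrix.one_apply]
      split_ifs
      · exact map_one _
      · exact map_zero _
  intro R hR
  rw [h1] at hR ⊢
  refine Eq.trans ?_ (h R hR)
  refine Finset.sum_congr rfl fun σ _ => ?_
  rw [Matrix.mul_apply]
  rfl

theorem small_cod {n r : ℕ} (hn : 0 < n) {B : Matrix (Fin n) (Fin n) ℂ} (h : Small r B) :
    CentreFree (Pool.Agent.Helper880_R3.lieB B) ∧ NoSmall r (Pool.Agent.Helper880_R3.lieB B) := by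
  rcases h with ⟨rfl, h⟩ | ⟨⟨h1, h2⟩, h3⟩ | ⟨h1, h2, h3, h4⟩
  · exact ⟨Pool.Agent.Helper880_R3.cf_sl hn, Pool.Agent.Helper880_R3.cod_sl h⟩
  · have hB := (Matrix.isUnit_iff_isUnit_det _).1 h1
    refine ⟨Pool.Agent.Helper880_R3.cf_form (ε := -1) hB (by ring) (by rw [h2, neg_one_smul]) ?_,
      Pool.Agent.Helper880_R3.cod_sp hB h2 (by omega) (by omega)⟩
    have h5 : (8 : ℂ) - 4 * -1 * n = ((8 + 4 * n : ℕ) : ℂ) := by
      push_cast
      ring
    rw [h5]
    exact_mod_cast (by omega : 8 + 4 * n ≠ 0)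
  · have hB := (Matrix.isUnit_iff_isUnit_det _).1 h1
    refine ⟨Pool.Agent.Helper880_R3.cf_form (ε := 1) hB (by ring) (by rw [h2, one_smul]) ?_,
      Pool.Agent.Helper880_R3.cod_so hB h2 h4⟩
    intro h5
    have h6 : (n : ℂ) = ((2 : ℕ) : ℂ) := by
      push_cast
      linear_combination (-1 / 4 : ℂ) * h5
    exact h3 (by exact_mod_cast h6)

theorem adm {n r : ℕ} (hn : 0 < n) {𝔤 : Submodule ℂ (Matrix (Fin n) (Fin n) ℂ)} (h : Admissible r 𝔤) :
    IsLieAlg 𝔤 ∧ CentreFree 𝔤 ∧ NoSmall r 𝔤 := by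
  rcases h with h | ⟨B, hB, h⟩
  · exact h
  · have h1 : 𝔤 = Pool.Agent.Helper880_R3.lieB B := Submodule.ext h
    rw [h1]
    exact ⟨Pool.Agent.Helper880_R3.lieB_lie B, small_cod hn hB⟩

/-- from stability to the consequences for classical monodromy groups -/
theorem good_of {n N D r₀ : ℕ} {C₀ : Matrix (Fin r₀) (Fin r₀) ℂ} {C : Fin N → Matrix (Fin n) (Fin n) ℂ}
    {𝔤 : Fin N → Submodule ℂ (Matrix (Fin n) (Fin n) ℂ)} {P : Fin N → Matrix (Fin n) (Fin n) ℂ}
    (h : ∀ K : Subfield ℂ, FiniteDimensional ℚ K → Module.finrank ℚ K ≤ D →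
      ∀ S : Set (Matrix (Fin r₀ ⊕ (Fin n × Fin N)) (Fin r₀ ⊕ (Fin n × Fin N)) ℂ), IsSubtorsor K S →
      total C₀ (fun j => C j * P j) ∈ S → ∀ X : Fin N → Matrix (Fin n) (Fin n) ℂ, (∀ j, X j ∈ 𝔤 j) → ∀ x ∈ S,
      total 1 (fun j => NormedSpace.exp (C j * X j * (C j)⁻¹)) * x ∈ S) : Good D C₀ C 𝔤 fun j => C j * P j := by
  intro K hK hKD S hS hmem
  have hst := h K hK hKD S hS hmem
  have hS' := Pool.Agent.Y123.ST.subT_iff.1 hS
  have hC : ∀ j, IsUnit (C j).det := fun j => by
    have h1 := (Pool.Agent.Helper880_R3.Tot_unit (hS'.isUnit _ hmem)).2 j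
    have h2 := (Matrix.isUnit_iff_isUnit_det _).1 h1
    rw [Matrix.det_mul] at h2
    exact isUnit_of_mul_isUnit_left h2
  have hgrp : ∀ B : Fin N → Matrix (Fin n) (Fin n) ℂ, (∀ j, Classical (B j)) →
      (∀ j X, IsInfinitesimal (B j) X → X ∈ 𝔤 j) →
      ∀ g : Fin N → (Matrix (Fin n) (Fin n) ℂ)ˣ, (∀ j, g j ∈ Pool.Agent.Y123.GN.GB (C j * B j * (C j)ᵀ)) →
      ∀ x ∈ S, total 1 (fun j => (g j : Matrix (Fin n) (Fin n) ℂ)) * x ∈ S := fun B hB hB𝔤 g hg x hx =>
    Pool.Agent.H885.grp_stabC hS' hC (fun Y hY => hst Y fun j => hB𝔤 j _ (hY j)) hB g hg hx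
  refine ⟨hst, ?_, ?_⟩
  · intro B hB hB𝔤 Q μ x₀ X Y hX hY hd hx
    exact Pool.Agent.H885.fibre_fullC hS' (hgrp B hB hB𝔤) hX.1 hx hX.2 hY.2 fun j =>
      (hd j).imp (fun h => Pool.Agent.Helper880_R3.Spf_conj (hC j) h) id
  · intro hr hC₀ B hB hB𝔤 Q w m δ hSF
    have hKalg : ∀ x ∈ K, IsAlgebraic ℚ x := by
      intro x hx
      have : NumberField K := { to_charZero := inferInstance, to_finiteDimensional := hK }
      have h6 : IsAlgebraic ℚ (⟨x, hx⟩ : K) := Algebra.IsAlgebraic.isAlgebraic _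
      exact h6.algebraMap (A := ℂ)
    rw [hC₀] at hmem
    exact Pool.Agent.H885.absoluteC hKalg hr hS' hmem (hgrp B hB hB𝔤) hSF

/-- the data which show that a tuple is exceptional -/
theorem bad_data {m n N q q' E₀ D r₀ r : ℕ} (hn : 0 < n) {C₀ : Matrix (Fin r₀) (Fin r₀) ℂ}
    {C : Fin N → Matrix (Fin n) (Fin n) ℂ} {H : ℝ} (hH : 1 ≤ H) {h : ℕ}
    (hbase : ∀ (H : ℝ) (T : MvPolynomial (Fin m) ℤ) (A : Fin 1 → Fin m → Fin n → Fin n → MvPolynomial (Fin m) ℤ)
      (Z W : Fin 1 → Matrix (Fin n) (Fin n) (MvPowerSeries (Fin m) ℚ)), Pool.Agent.H885.GBaseU q H T A Z W →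
      ∀ (h : ℕ) (a : Fin 1 → Fin m → ℤ), (∀ j i, |a j i| ≤ h) →
        (∀ j, Pool.Agent.H885.line (a j) (Pool.Agent.H885.toMv T) ≠ 0) →
        ∃ (T' : Polynomial ℤ) (B' : Fin 1 → Fin n → Fin n → Polynomial ℤ), T' ≠ 0 ∧
          Pool.Agent.H885.Sys q' ((2 * H * ((h : ℝ) + 2)) ^ E₀) T' B' (fun j => Pool.Agent.H885.lineM (a j) (Z j))
            (fun j => Pool.Agent.H885.lineM (a j) (W j)))
    {b : Fin N → ℕ} {T : Fin N → MvPolynomial (Fin m) ℤ} {A : Fin N → Fin m → Fin n → Fin n → MvPolynomial (Fin m) ℤ}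
    {Z W : Fin N → Matrix (Fin n) (Fin n) (MvPowerSeries (Fin m) ℚ)} (hF : ∀ j, Family q H (T j) (A j) (Z j) (W j))
    {a : Fin N → Fin m → ℤ} (ha : ∀ j i, |a j i| ≤ h) (hTa : ∀ j, restrict (a j) (toQ (T j)) ≠ 0)
    {𝔤 : Fin N → Submodule ℂ (Matrix (Fin n) (Fin n) ℂ)} (h𝔤 : ∀ j, Admissible r (𝔤 j))
    (hI : ∀ X : Fin N → Matrix (Fin n) (Fin n) ℂ, (∀ j, X j ∈ 𝔤 j) → ∀ β : ℕ,
      Symmetry (fun j => if b j = β then onLine (a j) (Z j) else 1) (fun j => if b j = β then X j else 0))
    (hbad : ¬ Good D C₀ C 𝔤 fun j => C j * value (Z j) (a j) (b j)) :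
    ∃ (T' : Fin N → Polynomial ℤ) (B' : Fin N → Fin n → Fin n → Polynomial ℤ)
      (Z' W' : Fin N → Matrix (Fin n) (Fin n) (PowerSeries ℚ)) (𝔤 : Fin N → Submodule ℂ (Matrix (Fin n) (Fin n) ℂ))
      (K : Subfield ℂ) (S : Set (Matrix (Fin r₀ ⊕ (Fin n × Fin N)) (Fin r₀ ⊕ (Fin n × Fin N)) ℂ)),
      (∀ j, Pool.Agent.H885.Sys (N := 1) q' ((2 * H * ((h : ℝ) + 2)) ^ E₀) (T' j) (fun _ => B' j) (fun _ => Z' j)
        (fun _ => W' j)) ∧ (∀ j, T' j ≠ 0) ∧
      (∀ j a b, Pool.Agent.Y120.GH.cx (Z' j a b) ∈ Pool.Agent.Y120.GH.Cw (2 ^ m * (H * ((h : ℝ) + 2)))) ∧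
      ((∀ j, IsLieAlg (𝔤 j)) ∧ (∀ j, CentreFree (𝔤 j)) ∧ ∀ j, NoSmall r (𝔤 j)) ∧
      (∀ X : Fin N → Matrix (Fin n) (Fin n) ℂ, (∀ j, X j ∈ 𝔤 j) → ∀ β,
        Pool.Agent.H885.InfT (Pool.Agent.H885.part b Z' β) (fun j => if b j = β then X j else 0)) ∧
      (FiniteDimensional ℚ K ∧ Module.finrank ℚ K ≤ D) ∧ IsSubtorsor K S ∧
      total C₀ (fun j => C j * Pool.Agent.Y118.HV.Hv (Z' j) (b j)) ∈ S ∧
      ¬ ∀ X : Fin N → Matrix (Fin n) (Fin n) ℂ, (∀ j, X j ∈ 𝔤 j) → ∀ x ∈ S,
        total 1 (fun j => NormedSpace.exp (C j * X j * (C j)⁻¹)) * x ∈ S := by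
  classical
  have h1 : ∀ j, ∃ (T' : Polynomial ℤ) (B' : Fin n → Fin n → Polynomial ℤ), T' ≠ 0 ∧
      Pool.Agent.H885.Sys (N := 1) q' ((2 * H * ((h : ℝ) + 2)) ^ E₀) T' (fun _ => B')
        (fun _ => Pool.Agent.H885.lineM (a j) (Z j)) (fun _ => Pool.Agent.H885.lineM (a j) (W j)) := by
    intro j
    obtain ⟨T', B', hT', hS'⟩ := hbase H (T j) (fun _ => A j) (fun _ => Z j) (fun _ => W j) (base_of hH (hF j)) h
      (fun _ => a j) (fun _ => ha j) (fun _ => hTa j)
    have h2 : B' = fun _ => B' 0 := funext fun i => by rw [Subsingleton.elim i 0]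
    rw [h2] at hS'
    exact ⟨T', B' 0, hT', hS'⟩
  choose T' B' hT' hS' using h1
  have h2 : ¬ ∀ K : Subfield ℂ, FiniteDimensional ℚ K → Module.finrank ℚ K ≤ D →
      ∀ S : Set (Matrix (Fin r₀ ⊕ (Fin n × Fin N)) (Fin r₀ ⊕ (Fin n × Fin N)) ℂ), IsSubtorsor K S →
      total C₀ (fun j => C j * value (Z j) (a j) (b j)) ∈ S → ∀ X : Fin N → Matrix (Fin n) (Fin n) ℂ, (∀ j, X j ∈ 𝔤 j) →
      ∀ x ∈ S, total 1 (fun j => NormedSpace.exp (C j * X j * (C j)⁻¹)) * x ∈ S := fun h3 => hbad (good_of h3)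
  simp only [not_forall] at h2
  obtain ⟨K, hK, hKD, S, hS, hmem, X, hX, x, hx, hxS⟩ := h2
  refine ⟨T', B', fun j => Pool.Agent.H885.lineM (a j) (Z j), fun j => Pool.Agent.H885.lineM (a j) (W j), 𝔤, K, S, hS', hT',
    fun j a' b' => ?_, ⟨fun j => (adm hn (h𝔤 j)).1, fun j => (adm hn (h𝔤 j)).2.1, fun j => (adm hn (h𝔤 j)).2.2⟩,
    fun X hX β => sym_inf (hI X hX β), ⟨hK, hKD⟩, hS, hmem, fun h3 => hxS (h3 X hX x hx)⟩
  exact Pool.Agent.Y120.GH.cx_mem (by positivity) (Pool.Agent.H885.line_size hH ((hF j).size a' b') (ha j))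

/-- **The theorem.** -/
theorem result (m n N M q D r₀ s ℓ e r : ℕ) (hn : 0 < n) (hℓ : ℓ ≤ r) :
    ∃ E : ℕ, ∀ (β : Fin s → ℂ) (H : ℝ) (h w b₀ : ℕ), 1 ≤ H → (2 * H * ((h : ℝ) + w + 2)) ^ E ≤ (b₀ : ℝ) →
    ∃ F : Finset ℕ, F.card ≤ M * (s / (r + 1 - ℓ)) ∧
    ∀ b : Fin N → ℕ, Allowed m M H h w b₀ b → (∀ j, ∀ c ∈ F, Far m H h (b j) c) →
    ∀ (C₀ : Matrix (Fin r₀) (Fin r₀) ℂ) (C : Fin N → Matrix (Fin n) (Fin n) ℂ), FewPeriods ℓ e β C₀ C →
    ∀ (T : Fin N → MvPolynomial (Fin m) ℤ) (A : Fin N → Fin m → Fin n → Fin n → MvPolynomial (Fin m) ℤ)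
      (Z W : Fin N → Matrix (Fin n) (Fin n) (MvPowerSeries (Fin m) ℚ)), (∀ j, Family q H (T j) (A j) (Z j) (W j)) →
    ∀ a : Fin N → Fin m → ℤ, (∀ j i, |a j i| ≤ h) → (∀ j, restrict (a j) (toQ (T j)) ≠ 0) →
    ∀ 𝔤 : Fin N → Submodule ℂ (Matrix (Fin n) (Fin n) ℂ), (∀ j, Admissible r (𝔤 j)) →
      (∀ X : Fin N → Matrix (Fin n) (Fin n) ℂ, (∀ j, X j ∈ 𝔤 j) → ∀ β : ℕ,
        Symmetry (fun j => if b j = β then onLine (a j) (Z j) else 1) (fun j => if b j = β then X j else 0)) →
      Good D C₀ C 𝔤 fun j => C j * value (Z j) (a j) (b j) := by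
  classical
  obtain ⟨q', E₀, hbase⟩ := Pool.Agent.H885.base_sysU m n 1 q
  set L : ℕ := s / (r + 1 - ℓ) + 1 with hL
  have hLr : s + L * ℓ < L * (r + 1) := by
    have h1 : s < (r + 1 - ℓ) * L := by
      rw [hL]
      exact Nat.lt_mul_div_succ s (by omega)
    have h2 : L * (r + 1) = (r + 1 - ℓ) * L + L * ℓ := by
      have h3 : r + 1 = (r + 1 - ℓ) + ℓ := by omega
      calc L * (r + 1) = L * ((r + 1 - ℓ) + ℓ) := by rw [← h3]
        _ = _ := by ring
    omega
  obtain ⟨E, hE⟩ := Pool.Agent.H885.uniformT n N q' D r₀ s e r ℓ L hn hLr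
  obtain ⟨e₁, he₁⟩ := Pool.Agent.H885.pow_absorb (c := (2 : ℝ) * (1 + 2 ^ m)) (by
    have : (1 : ℝ) ≤ 2 ^ m := one_le_pow₀ (by norm_num)
    linarith)
  refine ⟨(e₁ + E₀ + 1) * E, fun βs H h w b₀ hH hbig => ?_⟩
  set x : ℝ := 2 * H * ((h : ℝ) + w + 2) with hx
  have hh0 : (0 : ℝ) ≤ h := by positivity
  have hw0 : (0 : ℝ) ≤ w := by positivity
  have hx1 : (h : ℝ) + w + 2 ≤ x := by
    rw [hx]
    nlinarith
  have hx2 : 2 ≤ x := by linarith
  have hx3 : H * ((h : ℝ) + 2) ≤ x := by
    rw [hx]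
    nlinarith
  have hx4 : 2 * H * ((h : ℝ) + 2) ≤ x := by
    rw [hx]
    nlinarith
  have hbig' : (2 * (2 * H * ((h : ℝ) + 2)) ^ E₀ * ((w : ℝ) + 2 ^ m * (H * ((h : ℝ) + 2)) + 2)) ^ E ≤ (b₀ : ℝ) := by
    refine le_trans ?_ hbig
    rw [pow_mul]
    refine pow_le_pow_left₀ (by positivity) ?_ E
    have h1 : (2 * H * ((h : ℝ) + 2)) ^ E₀ ≤ x ^ E₀ := pow_le_pow_left₀ (by positivity) hx4 _
    have h2 : (w : ℝ) + 2 ^ m * (H * ((h : ℝ) + 2)) + 2 ≤ (1 + 2 ^ m) * x := by
      have h3 : (2 : ℝ) ^ m * (H * ((h : ℝ) + 2)) ≤ 2 ^ m * x := mul_le_mul_of_nonneg_left hx3 (by positivity)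
      linarith
    calc 2 * (2 * H * ((h : ℝ) + 2)) ^ E₀ * ((w : ℝ) + 2 ^ m * (H * ((h : ℝ) + 2)) + 2) ≤
        2 * x ^ E₀ * ((1 + 2 ^ m) * x) := by
          refine mul_le_mul (by linarith) h2 (by positivity) (by positivity)
      _ = (2 * (1 + 2 ^ m)) * (x ^ E₀ * x) := by ring
      _ ≤ x ^ e₁ * (x ^ E₀ * x) := mul_le_mul_of_nonneg_right (he₁ x hx2) (by positivity)
      _ = x ^ (e₁ + E₀ + 1) := by ring
  have hFar : ∀ b c : ℕ, Far m H h b c → 2 * (2 ^ m * (H * ((h : ℝ) + 2))) < |(b : ℝ) - c| := by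
    intro b c hbc
    refine lt_of_eq_of_lt ?_ hbc
    ring
  have hFsym : ∀ b c : ℕ, Far m H h b c → Far m H h c b := by
    intro b c hbc
    unfold Far at hbc ⊢
    rw [abs_sub_comm]
    exact hbc
  -- the exceptional tuples
  set Bad : (Fin N → ℕ) → Prop := fun b => Allowed m M H h w b₀ b ∧
    ∃ (C₀ : Matrix (Fin r₀) (Fin r₀) ℂ) (C : Fin N → Matrix (Fin n) (Fin n) ℂ), FewPeriods ℓ e βs C₀ C ∧
    ∃ (T' : Fin N → Polynomial ℤ) (B' : Fin N → Fin n → Fin n → Polynomial ℤ)
      (Z' W' : Fin N → Matrix (Fin n) (Fin n) (PowerSeries ℚ)) (𝔤 : Fin N → Submodule ℂ (Matrix (Fin n) (Fin n) ℂ))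
      (K : Subfield ℂ) (S : Set (Matrix (Fin r₀ ⊕ (Fin n × Fin N)) (Fin r₀ ⊕ (Fin n × Fin N)) ℂ)),
      (∀ j, Pool.Agent.H885.Sys (N := 1) q' ((2 * H * ((h : ℝ) + 2)) ^ E₀) (T' j) (fun _ => B' j) (fun _ => Z' j)
        (fun _ => W' j)) ∧ (∀ j, T' j ≠ 0) ∧
      (∀ j a b, Pool.Agent.Y120.GH.cx (Z' j a b) ∈ Pool.Agent.Y120.GH.Cw (2 ^ m * (H * ((h : ℝ) + 2)))) ∧
      ((∀ j, IsLieAlg (𝔤 j)) ∧ (∀ j, CentreFree (𝔤 j)) ∧ ∀ j, NoSmall r (𝔤 j)) ∧
      (∀ X : Fin N → Matrix (Fin n) (Fin n) ℂ, (∀ j, X j ∈ 𝔤 j) → ∀ β,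
        Pool.Agent.H885.InfT (Pool.Agent.H885.part b Z' β) (fun j => if b j = β then X j else 0)) ∧
      (FiniteDimensional ℚ K ∧ Module.finrank ℚ K ≤ D) ∧ IsSubtorsor K S ∧
      total C₀ (fun j => C j * Pool.Agent.Y118.HV.Hv (Z' j) (b j)) ∈ S ∧
      ¬ ∀ X : Fin N → Matrix (Fin n) (Fin n) ℂ, (∀ j, X j ∈ 𝔤 j) → ∀ x ∈ S,
        total 1 (fun j => NormedSpace.exp (C j * X j * (C j)⁻¹)) * x ∈ S with hBad
  set P : ℕ → Prop := fun p => ∃ β : Fin p → Fin N → ℕ, (∀ l, Bad (β l)) ∧
    ∀ l l', l ≠ l' → ∀ i j, Far m H h (β l i) (β l' j) with hP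
  have hPL : ¬ P L := by
    rintro ⟨β, hβ, hsep⟩
    have h1 := fun l => (hβ l).2
    choose C₀ C hfew T' B' Z' W' 𝔤 K S hS hT hmem h𝔤 hI hK hS' hmS hst using h1
    choose γ κ hκ hf₀ hf using hfew
    obtain ⟨l, hl⟩ := hE ⟨βs, γ, κ, C₀, C, (2 * H * ((h : ℝ) + 2)) ^ E₀, T', B', Z', W', 2 ^ m * (H * ((h : ℝ) + 2)), w, b₀,
        β, 𝔤, K, S⟩
      ⟨hκ, hf₀, hf, one_le_pow₀ (by nlinarith), hS, hT, by positivity, hmem, fun l j => (hβ l).1.1 j, fun l j l' j' hne => by
        by_cases hll : l = l'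
        · subst hll
          rcases (hβ l).1.2.1 j j' with h2 | h2
          · exact absurd ⟨rfl, h2⟩ hne
          · exact hFar _ _ h2
        · exact hFar _ _ (hsep l l' hll j j'), hbig', fun l j => (h𝔤 l).1 j, fun l j => (h𝔤 l).2.1 j,
        fun l j => (h𝔤 l).2.2 j, fun l => hI l, fun l => (hK l).1, fun l => (hK l).2,
        fun l => Pool.Agent.Y123.ST.subT_iff.1 (hS' l), hmS⟩
    exact hst l hl
  have hP0 : P 0 := ⟨fun l => l.elim0, fun l => l.elim0, fun l => l.elim0⟩
  obtain ⟨p, hp, hPp, hPp1⟩ : ∃ p, p < L ∧ P p ∧ ¬ P (p + 1) := by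
    by_contra hcon
    push Not at hcon
    have h1 : ∀ p, p ≤ L → P p := by
      intro p
      induction p with
      | zero => exact fun _ => hP0
      | succ p ih => exact fun hp => hcon p (by omega) (ih (by omega))
    exact hPL (h1 L le_rfl)
  obtain ⟨β, hβ, hsep⟩ := hPp
  refine ⟨Finset.univ.biUnion fun l => Finset.univ.image (β l), ?_, ?_⟩
  · refine Finset.card_biUnion_le.trans ?_
    refine (Finset.sum_le_card_nsmul _ _ M fun l _ => (hβ l).1.2.2).trans ?_
    rw [Finset.card_univ, Fintype.card_fin, smul_eq_mul, mul_comm]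
    exact Nat.mul_le_mul_left _ (by omega)
  · intro b hb hbF C₀ C hfew T A Z W hF a ha hTa 𝔤 h𝔤 hI
    by_contra hbad
    apply hPp1
    have hBb : Bad b := ⟨hb, C₀, C, hfew, bad_data hn hH hbase hF ha hTa h𝔤 hI hbad⟩
    refine ⟨Fin.cons b β, fun l => ?_, fun l l' hll i j => ?_⟩
    · refine Fin.cases ?_ (fun l => ?_) l
      · exact hBb
      · exact hβ l
    · have hin : ∀ l j, β l j ∈ Finset.univ.biUnion fun l => Finset.univ.image (β l) := fun l j =>
        Finset.mem_biUnion.2 ⟨l, Finset.mem_univ _, Finset.mem_image_of_mem _ (Finset.mem_univ _)⟩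
      rcases Fin.eq_zero_or_eq_succ l with rfl | ⟨l, rfl⟩ <;> rcases Fin.eq_zero_or_eq_succ l' with rfl | ⟨l', rfl⟩
      · exact absurd rfl hll
      · rw [Fin.cons_zero, Fin.cons_succ]
        exact hbF i _ (hin l' j)
      · rw [Fin.cons_zero, Fin.cons_succ]
        exact hFsym _ _ (hbF j _ (hin l i))
      · rw [Fin.cons_succ, Fin.cons_succ]
        exact hsep l l' (fun h1 => hll (by rw [h1])) i j

end Pool.Agent.Results.MP_caab05_ag.FewExceptionalDenominators
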