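import Pool.Agent.H943.DP.AppC
import Pool.Graph.R_pool_sql_team_seeded_63374d34.N208.CT.Main

set_option autoImplicit false

/-!
# The period torsors of motives of unitary type contain the Mumford-Tate group: division algebras of
# prime power degree over CM fields, arbitrary signatures

Let `A` be an abelian variety over `ℚ̄` and let `M` be any André motive over `ℚ̄` in the tensor
category generated by `h^1(A)` and the Tate motives. Let `P` be the matrix of the periods
of `M`, and let `G ⊆ GL(H_B(M))` be *any* algebraic group over `ℚ` such that the comparison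
isomorphism of `M` is a point of a torsor of `G` defined over `ℚ̄`: `P T ∈ G(ℂ)` for some matrix `T`
with algebraic entries. By theorems of Deligne and André the motivic Galois group of `M` is its
Mumford-Tate group `MT(M)` (it is also the motivic Galois group of Nori and Ayoub), and `P` is a point of
a torsor of `MT(M)`. The weak form of the conjecture says that `P` is a generic point of this torsor
(`MT(M)` is connected); in particular it predicts that every such `G` contains `MT(M)`. (This is
`Ω_M = Ω_M^{And}`. The prediction for all motives in the tensor category of `M` is equivalent to: all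
de Rham-Betti classes in the tensor constructions of `M` are Hodge classes.) We prove this prediction for
the following abelian varieties.

**The part of `A`** (`DivisionPart`). Let `z` be an element of the centre of `End(A) ⊗ ℚ` which is
skew-symmetric for the polarization, such that every element of the centre is a polynomial in `z` on
the image of `z`. For example let `A` be isogenous to `A₁ ^ k × A₂`, `A₁` simple,
`Hom(A₁, A₂) = 0`, let the centre of `End(A₁) ⊗ ℚ` be a CM field `F`, and `z ∈ F` a generator with
`z̄ = - z`. Let `B` be the algebra of the endomorphisms of the rational vector space `H_1(A, ℚ)` which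
commute with `End(A)`, cut down to the image of `z`: a central simple algebra over `F`. Let `S` be a
finite set of real numbers `a ≠ 0`, `S` and `- S` disjoint, such that both `i a` and `- i a` are
eigenvalues of `z` on the tangent space of `A`: so `S` is a set of places of `F` at which the unitary
group of `B` is not compact, of a signature `(r_a, s_a)` with `r_a, s_a ≥ 1`. We assume:

* `B` is a division algebra over `F` of degree `q = p ^ k`, a power of a prime number `p`. The integers
  `r_a ≥ 1`, `s_a ≥ 1` with `r_a + s_a = q` are arbitrary.
* The exponent of `B`, its order in the Brauer group of `F`, is equal to the degree `q`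
  (`HasExponent`). *This is always true*, by the theorem of Albert, Brauer, Hasse and Noether, since
  `F` is a number field; the condition is only here because that theorem is not available in Mathlib. It
  is formulated in elementary terms: if there are `N` pairwise commuting representations of `B` on one
  vector space over `F` of dimension at most `q ^ N` (then `B ^ {⊗ N}` is a matrix algebra), then `q`
  divides `N`.
* *separation*: if `B₁ ⊆ B` is a `ℚ`-algebra with `B = B₁ F`, then the elements of `F` in `B₁`
  separate `± i a` and `± i b` for different `a`, `b` in `S`. (So nothing is assumed if `S` has only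
  one element.)

**The centre** (`RigidCentre`). We assume that the centre of the Lie algebra `𝔤` of the Hodge group of `A`
is rigid: all relations with coefficients in `ℕ` between the eigenvalues of a generating element hold for
the whole centre.

**The domain of `M`** (`DomainOf`). We assume that the part of the Hodge group of `A` which acts
trivially on the eigenspaces for `± i a`, `a ∈ S`, acts trivially on the Mumford-Tate domain
of `M`. If `S` is the set of all places at which the unitary group is not compact, and the other factors of
`A` have complex multiplication, then this is true for all motives `M`.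

**Theorem.** Every such group `G` contains `MT(M)`.

**The main example.** Let `F` be an imaginary quadratic field, let `D` be a division algebra over `F` of
degree `q = p ^ k`, and let `A₁` be a simple abelian variety over `ℚ̄` of dimension `q ^ 2` with multiplication
by `D`, of signature `(r, s)`, `r + s = q`, `r, s ≥ 1`, `r ≠ s` (this is automatic if `p` is odd). Then for
**all** motives `M` in the tensor category generated by `h^1(A₁)` and the Tate motives, each `G` contains
`MT(M)`, and all de Rham-Betti classes on the powers of `A₁` and in the tensor constructions of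
`h^1(A₁)` are Hodge classes. To see this we apply the theorem to `A = A₁ × E₀`, where `E₀` is an elliptic
curve with complex multiplication by `F`; `M` is also a motive in the tensor category generated by
`h^1(A)`. The division part is given by `z = (√-d, 0)`. The centre of the Lie algebra of the Hodge group of
`A` is the set of the `(α x, x)`, `x ∈ F`, `x̄ = - x`, with `α = ± (r - s) / q ≠ 0`, of dimension one. The
endomorphism `0` does not generate it in the sense of `Generates`: the endomorphisms of `H_1(E₀, ℚ)`
commute with `[𝔤, 𝔤]` but not with `F`. All other elements are rational multiples of each other, so the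
centre is rigid. The condition on the domain is satisfied since `S` contains the only place of the totally
real subfield. The abelian varieties `A₁` are those of the Shimura varieties of Kottwitz, Clozel, Harris and
Taylor for `D` (there is no condition on `A₁` apart from its endomorphisms).

The case that `q` is a prime number is a part of `CentreOfPeriodTorsors` (helper208); the method of that
work for division algebras stops at prime degrees. New is the following theorem
(`Pool.Agent.H943.DP.thmA`), which is the subject of the files `Pool/Agent/H943/DP/`: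

*Theorem A. Let `B` be a central division algebra over a field `F` of characteristic zero, of degree
`q = p ^ k` and exponent `q`. Every `F`-subspace of `B` which is closed under commutators and generates
`B` as an algebra contains all commutators of elements of `B`.*

Nothing is assumed about periods: `AbVar` is the description of an abelian variety over `ℚ̄` by theta
functions (see `Pool/Agent/Y102/AVDefs.lean`, where it is explained why every abelian variety has it),
and the transcendence theorems which are used, the theorem of Schneider and Lang and the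
transcendence of `π`, are proved in this repository. The group `G` is not assumed to be reductive.

## Motives

As `h^1(A)` is dual to `h^1(A)(1)`, the motive `M` is a direct factor of a sum of motives
`h^1(A) ^ {⊗ r i} (w i)`. Its Betti realization is a space of families of multilinear forms with
rational values, in `r i` variables in `H_1(A, ℚ)`, with a basis `B`. It is the image of a motivated
projector, and the realizations of motivated classes are Hodge classes and de Rham-Betti classes; so
it is stable under the Lie algebra `𝔤` of the endomorphisms of `H_1(A, ℚ)` which annihilate all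
classes that are Hodge classes and de Rham-Betti classes (`InLie`), and under the weights. The de Rham
realization has a basis which consists of combinations of products of elements of `H^1_dR(A / ℚ̄)`
with algebraic coefficients. The matrix `P` of the periods expresses it in terms of the basis
`(2 π i) ^ (w i) B` of the Betti realization (`IsMotive`). By the theorem of Deligne `𝔤` is the Lie
algebra of the Hodge group of `A`, and its image in the endomorphisms of `M` is the Lie algebra of
the Hodge group of `M`.

## Proof

Let `L` be the Lie algebra of `G`, and let `𝔮` be the set of the `X` in `𝔤` whose action on `M` is in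
`L` up to a multiple of the weight operator. By the theorem of Schneider and Lang `𝔮` acts semisimply on
`H_1(A, ℚ)`, with the same commutant as `𝔤` (`Pool.Agent.N208.AM.qM_full`). So `𝔮` is the sum of
`[𝔮, 𝔮]` and of elements of the centre of `𝔤`, and `F 𝔮` generates `B` (on the image of `z`).

1. By Theorem A `F 𝔮` contains all commutators of `B`. For `a ∈ S` it follows that the image of
   `[𝔮, 𝔮] ⊗ ℝ` in `u(h)`, `h` the hermitian form of signature `(r_a, s_a)`, is `su(h)`
   (`Pool.Agent.H943.DP.mainq`). For several places one obtains the product of these Lie algebras, by the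
   separation (`Pool.Agent.H943.DP.rpartDq`). So the semisimple part of the complex structure is in
   `L ⊗ ℝ`.
2. The centre of `𝔤` acts on `M` by diagonalizable operators which commute with the weights. A generic
   element `X` of the intersection of `𝔮` with the centre of `𝔤` satisfies `Generates`, since
   `𝔮` has the same commutant as `𝔤`. By the theorem on replicas and the rigidity the action of the
   whole centre of `𝔤` on `M` is in `L` (`CT.cen_mem`). So the Deligne torus maps to `G`.
-/

open Module Matrix Pool.Agent.Y102 Pool.Agent.W516.DR Pool.Agent.H204R3.GP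

noncomputable section

namespace Pool.Agent.Results.MP_caab05_ag.MumfordTatePrimePowerDegree

variable {g : ℕ} (A : AbVar g)

/-! ### The part of the abelian variety -/

/-- `P` is an endomorphism of `A` (up to isogeny), in terms of its action on `H_1(A, ℚ)`: it respects
the de Rham structure. (By the theorem of Bost, which is proved in `Pool.Agent.Y102.AbVar.hodge_end`,
these are the elements of `End(A) ⊗ ℚ`.) -/
def IsEndo (P : Module.End ℚ A.H1) : Prop := IsDeRhamBettiEnd QBar A.dR P

/-- The endomorphism `X` of `H_1(A, ℚ)` commutes with the endomorphisms of `A`. -/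
def Commutes (X : Module.End ℚ A.H1) : Prop := ∀ P, IsEndo A P → X * P = P * X

/-- `x` is an eigenvector of `z` for the eigenvalue `i a` (or zero); here `H_1(A, ℝ) = ℂ ^ g` is the
tangent space, and `A.ext z` is the real linear extension of `z`. -/
def Eigen (z : Module.End ℚ A.H1) (a : ℝ) (x : Fin g → ℂ) : Prop :=
  A.ext z x = ((a : ℂ) * Complex.I) • x

/-- The restriction of the endomorphism `X` to the image of `z` is `q(z)`. -/
def IsPoly (z X : Module.End ℚ A.H1) (q : Polynomial ℚ) : Prop :=
  X * z = Polynomial.aeval z q * z

/-- The value `q(i a)` of the polynomial `q`. -/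
def value (a : ℝ) (q : Polynomial ℚ) : ℂ := Polynomial.aeval ((a : ℂ) * Complex.I) q

/-- **The separation.** If the subalgebra `B₁` generates together with `z` the algebra of all
endomorphisms which commute with the endomorphisms of `A` (on the image of `z`), then `B₁` contains
(on the image of `z`) polynomials in `z` which separate the numbers `± i a` and `± i b` for different
elements `a`, `b` of `S`. -/
def Separated (z : Module.End ℚ A.H1) (S : Finset ℝ) : Prop :=
  ∀ B₁ : Subalgebra ℚ (Module.End ℚ A.H1), (∀ X ∈ B₁, Commutes A X) →
    (∀ X, Commutes A X → ∃ X' ∈ Algebra.adjoin ℚ ((B₁ : Set (Module.End ℚ A.H1)) ∪ {z}),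
      X * z = X' * z) →
    ∀ a b : ℝ, (a ∈ S ∨ -a ∈ S) → (b ∈ S ∨ -b ∈ S) → a ≠ b → a ≠ -b →
      ∃ q, ∃ X ∈ B₁, IsPoly A z X q ∧ value a q ≠ value b q

/-- `z` is an endomorphism in the centre of the algebra of the endomorphisms, it is skew-symmetric for the
polarization, and the elements of the centre are polynomials in `z` on the image of `z`. -/
structure CentralPart (z : Module.End ℚ A.H1) : Prop where
  endo : IsEndo A z
  central : ∀ P, IsEndo A P → z * P = P * z
  skew : ∀ u v, A.om (z u) v + A.om u (z v) = 0
  generates : ∀ P, IsEndo A P → (∀ Q, IsEndo A Q → P * Q = Q * P) → ∃ q, IsPoly A z P q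

/-- The numbers `i a`, `a ∈ S`, are different from zero and not conjugate to each other, and `i a` and
`- i a` are eigenvalues of `z` on the tangent space. -/
structure Indefinite (z : Module.End ℚ A.H1) (S : Finset ℝ) : Prop where
  disjoint : ∀ a ∈ S, a ≠ 0 ∧ -a ∉ S
  indefinite : ∀ a ∈ S, (∃ x, x ≠ 0 ∧ Eigen A z a x) ∧ ∃ x, x ≠ 0 ∧ Eigen A z (-a) x

/-- The commutant of the endomorphisms is a division algebra on the image of `z`: if `X` is not zero on
the image of `z` then it is injective there. -/
def IsDivision (z : Module.End ℚ A.H1) : Prop :=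
  ∀ X, Commutes A X → (∀ v, X (z v) = 0 → z v = 0) ∨ ∀ v, X (z v) = 0

/-- The degree over `ℚ` of the field `F = ℚ[z]` (on the image of `z`): the dimension of the space of
the `f(z) z`, `f` a polynomial. -/
def centreDegree (z : Module.End ℚ A.H1) : ℕ :=
  Set.finrank ℚ {Y | ∃ X f, IsPoly A z X f ∧ Y = X * z}

/-- The commutant `B` of the endomorphisms (restricted to the image of `z`) is of dimension `q ^ 2` over
its centre `F = ℚ[z]`: the space of the `X z` has dimension `q ^ 2` times the dimension of the space of
the `f(z) z`. -/
def HasDegree (z : Module.End ℚ A.H1) (q : ℕ) : Prop :=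
  Set.finrank ℚ {Y | ∃ X, Commutes A X ∧ Y = X * z} = q ^ 2 * centreDegree A z

/-- `φ` is a representation by rational matrices with `r` rows of the algebra `B` of the restrictions to
the image of `z` of the endomorphisms `X` of `H_1(A, ℚ)` which commute with the endomorphisms of `A`. -/
structure IsRepresentation (z : Module.End ℚ A.H1) {r : ℕ}
    (φ : Module.End ℚ A.H1 → Matrix (Fin r) (Fin r) ℚ) : Prop where
  add : ∀ X Y, Commutes A X → Commutes A Y → φ (X + Y) = φ X + φ Y
  mul : ∀ X Y, Commutes A X → Commutes A Y → φ (X * Y) = φ X * φ Y
  one : φ 1 = 1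
  restriction : ∀ X, Commutes A X → X * z = 0 → φ X = 0

/-- **The exponent** of the division algebra `B` over `F = ℚ[z]` is a multiple of `q`: if there are `N`
pairwise commuting representations of `B`, which agree on `z`, so on `F`, in a vector space of
dimension `r`, `0 < r ≤ q ^ N [F : ℚ]` (it is a vector space over `F` of dimension at most `q ^ N`, and
a representation of the tensor product over `F` of `N` copies of `B`, which is then a matrix
algebra over `F`), then `q` divides `N`. If `q` is the degree of `B`, this is always true, by
the theorem of Albert, Brauer, Hasse and Noether. -/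
def HasExponent (z : Module.End ℚ A.H1) (q : ℕ) : Prop :=
  ∀ N r : ℕ, 0 < N → 0 < r → r ≤ q ^ N * centreDegree A z →
    ∀ φ : Fin N → (Module.End ℚ A.H1 → Matrix (Fin r) (Fin r) ℚ),
    (∀ i, IsRepresentation A z (φ i)) →
    (∀ i j, i ≠ j → ∀ X Y, Commutes A X → Commutes A Y → φ i X * φ j Y = φ j Y * φ i X) →
    (∀ i j, φ i z = φ j z) → q ∣ N

/-- **A unitary part** given by a division algebra of prime power degree `q`, with indefinite signatures at
the places of the finite set `S`. -/
structure DivisionPart (z : Module.End ℚ A.H1) (S : Finset ℝ) (q : ℕ) : Prop where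
  /-- `z` is central and skew-symmetric and it generates the centre on its image -/
  part : CentralPart A z
  /-- the places -/
  places : Indefinite A z S
  /-- the commutant of the endomorphisms is a division algebra on the image of `z` -/
  division : IsDivision A z
  /-- the degree `q` of this division algebra over its centre `ℚ[z]` is a power of a prime number -/
  primePower : IsPrimePow q
  degree : HasDegree A z q
  /-- the exponent is equal to the degree (always true) -/
  exponent : HasExponent A z q
  /-- the separation -/
  separated : Separated A z S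

/-! ### The Lie algebra -/

/-- The multilinear forms in `2m` variables in the rational homology. -/
abbrev Form (m : ℕ) : Type := MultilinearMap ℚ (fun _ : Fin m × Fin 2 => A.H1) ℚ

/-- `φ` is a de Rham-Betti class in `H^1(A) ^ {⊗ 2m} (m)`. -/
def IsDRB {m : ℕ} (φ : Form A m) : Prop :=
  IsDeRhamBettiForm QBar A.dR (2 * Real.pi * Complex.I) m φ

/-- `φ` is a Hodge class in `H^1(A) ^ {⊗ 2m} (m)`. -/
def IsHodge {m : ℕ} (φ : Form A m) : Prop := IsHodgeTensor (A.per : A.H1 →+ (Fin g → ℂ)) φ

/-- The endomorphism `X` annihilates the form `φ` (as a derivation). -/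
def Annihilates {m : ℕ} (X : Module.End ℚ A.H1) (φ : Form A m) : Prop :=
  ∀ v, ∑ k, φ (Function.update v k (X (v k))) = 0

/-- `X` is in the Lie algebra `𝔤`: it annihilates all classes that are Hodge classes and
de Rham-Betti classes. -/
def InLie (X : Module.End ℚ A.H1) : Prop :=
  ∀ (m : ℕ) (φ : Form A m), IsHodge A φ → IsDRB A φ → Annihilates A X φ

/-! ### Motives -/

variable {s n : ℕ} (r : Fin s → ℕ) (w : Fin s → ℤ)

/-- The Betti realization of the sum of the motives `h^1(A) ^ {⊗ r i} (w i)`: families of multilinear
forms in `r i` variables in the rational homology. -/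
abbrev Tensors : Type := ∀ i : Fin s, MultilinearMap ℚ (fun _ : Fin (r i) => A.H1) ℚ

variable {A r}

/-- `M` is the matrix of the action of the endomorphism `X` of the rational homology of `A` (as a
derivation) on the space of tensors with the basis `B`. -/
def IsLieMatrix (B : Fin n → Tensors A r) (X : Module.End ℚ A.H1)
    (M : Matrix (Fin n) (Fin n) ℚ) : Prop :=
  ∀ a i v, ∑ k, B a i (Function.update v k (X (v k))) = ∑ b, M b a * B b i v

/-- The subspace with the basis `B` is the Betti realization of a direct factor `M` of the sum of the
motives `h^1(A) ^ {⊗ r i} (w i)`, and `P` is the matrix of the periods of `M` for the basis `B` and for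
some basis of the de Rham realization of `M` over `ℚ̄`. -/
structure IsMotive (B : Fin n → Tensors A r) (P : Matrix (Fin n) (Fin n) ℂ) : Prop where
  /-- `B` is a basis of a subspace -/
  basis : LinearIndependent ℚ B
  /-- the subspace is stable under `𝔤` -/
  lie : ∀ X, InLie A X → ∃ M : Matrix (Fin n) (Fin n) ℚ, IsLieMatrix B X M
  /-- the subspace is stable under the weights -/
  weight : ∃ M : Matrix (Fin n) (Fin n) ℚ, ∀ a i v,
    ((r i : ℚ) - 2 * w i) * B a i v = ∑ b, M b a * B b i v
  /-- the de Rham realization has a basis of elements with algebraic coefficients in terms of the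
  tensor products of the elements of the basis of `H^1_dR(A / ℚ̄)` -/
  deRham : ∃ c : Fin n → ∀ i : Fin s, (Fin (r i) → Fin g ⊕ Fin g) → ℂ,
    (∀ a i J, IsAlgebraic ℚ (c a i J)) ∧ ∀ a i (v : Fin (r i) → A.H1),
      ∑ J, c a i J * ∏ k, A.dR (J k) (v k) =
        (2 * Real.pi * Complex.I) ^ (w i) * ∑ b, P b a * (B b i v : ℂ)
  /-- the matrix of the periods is invertible -/
  det : P.det ≠ 0

/-! ### The Mumford-Tate domain -/

/-- `N` is the matrix of the action on `M` of the multiplication with `i` on `H_1(A, ℝ) = ℂ ^ g` (as a
derivation): the generator of the Lie algebra of the circle in the Hodge structure of `M`. -/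
def IsComplexStructure (B : Fin n → Tensors A r) (N : Matrix (Fin n) (Fin n) ℝ) : Prop :=
  ∀ a i (j : Fin (r i) → Fin (2 * g)),
    ∑ k, ∑ l : Fin (2 * g), A.lam.repr (Complex.I • A.lam (j k)) l *
        (B a i (Function.update (fun p => Pi.single (j p) 1) k (Pi.single l 1)) : ℝ) =
      ∑ b, N b a * (B b i (fun p => Pi.single (j p) 1) : ℝ)

variable (A) in
/-- The derived algebra `[𝔤, 𝔤]`. -/
def derivedLie : Submodule ℚ (Module.End ℚ A.H1) :=
  Submodule.span ℚ {Z | ∃ X, InLie A X ∧ ∃ Y, InLie A Y ∧ Z = X * Y - Y * X}

/-- The part of the Hodge group which acts trivially on the eigenspaces of `z` for `± i a`, `a ∈ S`, acts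
trivially on the Mumford-Tate domain of `M`: if an element of `[𝔤, 𝔤] ⊗ ℝ`, which acts on
`H_1(A, ℝ) = ℂ ^ g` by `p.1` and on `M` by `p.2`, acts trivially on these eigenspaces, then `p.2`
commutes with the complex structure `N` of `M`. -/
def DomainOf (z : Module.End ℚ A.H1) (S : Finset ℝ) (B : Fin n → Tensors A r)
    (N : Matrix (Fin n) (Fin n) ℝ) : Prop :=
  ∀ p ∈ Submodule.span ℝ {p : Module.End ℝ (Fin g → ℂ) × Matrix (Fin n) (Fin n) ℝ |
      ∃ X ∈ derivedLie A, ∃ M : Matrix (Fin n) (Fin n) ℚ, IsLieMatrix B X M ∧
        p = (A.ext X, M.map fun q => (q : ℝ))},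
    (∀ a ∈ S, ∀ x, Eigen A z a x ∨ Eigen A z (-a) x → p.1 x = 0) → p.2 * N = N * p.2


/-! ### The centre -/

variable (A) in
/-- The algebra of the endomorphisms of `H_1(A, ℂ)`, as matrices for the basis of the lattice. -/
def toC (X : Module.End ℚ A.H1) : Matrix (Fin (2 * g)) (Fin (2 * g)) ℂ :=
  Matrix.of fun i j => (X (Pi.single j 1) i : ℂ)

variable (A) in
/-- `X` is an element of the centre of `𝔤`. -/
def InCentre (X : Module.End ℚ A.H1) : Prop := InLie A X ∧ ∀ Y, InLie A Y → Y * X = X * Y

variable (A) in
/-- The endomorphisms which commute with `X` and with the derived algebra of `𝔤` commute with the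
centre of `𝔤`. -/
def Generates (X : Module.End ℚ A.H1) : Prop :=
  ∀ T : Module.End ℚ A.H1,
    (∀ Y, InLie A Y → ∀ Z, InLie A Z → T * (Y * Z - Z * Y) = (Y * Z - Z * Y) * T) →
    T * X = X * T → ∀ Z, InCentre A Z → T * Z = Z * T

variable (A) in
/-- All relations `∑ i, x i = 0` between eigenvalues of `X` imply the relation `∑ i, y i = 0` between
the eigenvalues of `Y` for the same eigenvectors. -/
def RelationsOf (X Y : Module.End ℚ A.H1) : Prop :=
  ∀ (r : ℕ) (v : Fin r → Fin (2 * g) → ℂ) (x y : Fin r → ℂ),
    (∀ i, v i ≠ 0 ∧ Matrix.mulVec (toC A X) (v i) = x i • v i ∧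
      Matrix.mulVec (toC A Y) (v i) = y i • v i) → ∑ i, x i = 0 → ∑ i, y i = 0

variable (A) in
/-- The centre of `𝔤` is rigid: the relations between the eigenvalues of a generating element of the
centre hold for all elements of the centre. -/
def RigidCentre : Prop :=
  ∀ X, InCentre A X → Generates A X → ∀ Y, InCentre A Y → RelationsOf A X Y

/-! ### Algebraic groups, torsors and the Mumford-Tate group -/

/-- A subgroup of `GL_R(ℂ)` defined by polynomials with rational coefficients. -/
def IsAlgebraicSubgroup {R : Type} [Fintype R] [DecidableEq R] (G : Subgroup (GL R ℂ)) : Prop :=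
  ∃ I : Set (MvPolynomial (R × R) ℚ), ∀ x : GL R ℂ, x ∈ G ↔
    ∀ p ∈ I, MvPolynomial.aeval (fun b : R × R => (x : Matrix R R ℂ) b.1 b.2) p = 0

/-- The torsor `G · T⁻¹` of `G`: the matrices `F` such that `F T` is an element of `G`. It is
defined over `ℚ̄` if `T` is a matrix with algebraic entries. -/
def torsor (G : Subgroup (GL (Fin n) ℂ)) (T : Matrix (Fin n) (Fin n) ℂ) :
    Set (Matrix (Fin n) (Fin n) ℂ) :=
  {F | ∃ x ∈ G, (x : Matrix (Fin n) (Fin n) ℂ) = F * T}

variable (A) in
/-- The Hodge structure of `H^1(A)`: the complex number `z` acts on `H_1(A, ℝ) = ℂ ^ g` by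
multiplication, and on `H^1(A, ℝ)` by the transposed map, here in the basis of `H^1(A, ℚ)` which is
dual to the basis of the lattice. -/
def hodge (z : ℂ) : Matrix (Fin (2 * g)) (Fin (2 * g)) ℂ :=
  Matrix.of fun i j => ((A.lam.repr (z • A.lam i) j : ℝ) : ℂ)

/-- `R` is the matrix of the action of the complex number `z` on `M`, in the Hodge structure given by
those of `H^1(A)` and of the Tate motives (`z` acts on `ℚ(1)` by `(z z̄)⁻¹`). -/
def IsHodgeMatrix (B : Fin n → Tensors A r) (z : ℂ) (R : Matrix (Fin n) (Fin n) ℂ) : Prop :=
  ∀ a i (j : Fin (r i) → Fin (2 * g)),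
    ∑ j' : Fin (r i) → Fin (2 * g), (∏ k, hodge A z (j k) (j' k)) *
        (B a i (fun k => Pi.single (j' k) 1) : ℂ) =
      (z * (starRingEnd ℂ) z) ^ (w i) * ∑ b, R b a * (B b i (fun k => Pi.single (j k) 1) : ℂ)

/-- The Mumford-Tate group of `M`: the smallest algebraic group over `ℚ` which contains the image of
the Deligne torus. -/
def mumfordTate (B : Fin n → Tensors A r) : Subgroup (GL (Fin n) ℂ) :=
  sInf {G | IsAlgebraicSubgroup G ∧ ∀ z : ℂ, z ≠ 0 → ∃ x ∈ G,
    IsHodgeMatrix w B z (x : Matrix (Fin n) (Fin n) ℂ)}

variable (A) in
theorem comm_iff (X : Module.End ℚ A.H1) : Commutes A X ↔ X ∈ N208.BT.CB A :=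
  ⟨fun h P hP => h P (A.mem_EA.1 hP), fun h P hP => h P (A.mem_EA.2 hP)⟩

variable (A) in
theorem centre_eq (z : Module.End ℚ A.H1) : centreDegree A z =
    finrank ℚ ((Algebra.adjoin ℚ {z}).toSubmodule.map (LinearMap.mulRight ℚ z)) := by
  have e2 : Submodule.span ℚ {Y : Module.End ℚ A.H1 | ∃ X q, IsPoly A z X q ∧ Y = X * z} =
      (Algebra.adjoin ℚ {z}).toSubmodule.map (LinearMap.mulRight ℚ z) := by
    refine le_antisymm (Submodule.span_le.2 ?_) ?_
    · rintro _ ⟨X, q, hX, rfl⟩
      have h1 : X * z = LinearMap.mulRight ℚ z (Polynomial.aeval z q) := hX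
      rw [h1]
      refine Submodule.mem_map_of_mem (f := LinearMap.mulRight ℚ z) ?_
      exact Polynomial.aeval_mem_adjoin_singleton ℚ z
    · rintro _ ⟨X, hX, rfl⟩
      have hX' : X ∈ Algebra.adjoin ℚ {z} := hX
      rw [Algebra.adjoin_singleton_eq_range_aeval] at hX'
      obtain ⟨q, hq⟩ := hX'
      refine Submodule.subset_span ⟨X, q, ?_, rfl⟩
      have h2 : Polynomial.aeval z q = X := hq
      show X * z = Polynomial.aeval z q * z
      rw [h2]
  unfold centreDegree Set.finrank
  rw [e2]

variable (A) in
theorem deg_eq {z : Module.End ℚ A.H1} {q : ℕ} (h : HasDegree A z q) :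
    finrank ℚ ((N208.BT.CB A).map (LinearMap.mulRight ℚ z)) =
      q ^ 2 * finrank ℚ ((Algebra.adjoin ℚ {z}).toSubmodule.map (LinearMap.mulRight ℚ z)) := by
  have e1 : Submodule.span ℚ {Y : Module.End ℚ A.H1 | ∃ X, Commutes A X ∧ Y = X * z} =
      (N208.BT.CB A).map (LinearMap.mulRight ℚ z) := by
    refine le_antisymm (Submodule.span_le.2 ?_) ?_
    · rintro _ ⟨X, hX, rfl⟩
      exact Submodule.mem_map_of_mem (f := LinearMap.mulRight ℚ z) ((comm_iff A X).1 hX)
    · rintro _ ⟨X, hX, rfl⟩
      exact Submodule.subset_span ⟨X, (comm_iff A X).2 hX, rfl⟩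
  have h1 := h
  unfold HasDegree at h1
  rw [centre_eq] at h1
  unfold Set.finrank at h1
  rw [e1] at h1
  exact h1

variable (A) in
theorem DivisionPart.toHD {z : Module.End ℚ A.H1} {S : Finset ℝ} {q : ℕ}
    (h : DivisionPart A z S q) : H943.DP.HDq A z S q where
  mem := A.mem_EA.2 h.part.endo
  cen := fun P hP => h.part.central P (A.mem_EA.1 hP)
  skew := h.part.skew
  gen := fun P hP hc => h.part.generates P (A.mem_EA.1 hP) fun Q hQ => hc Q (A.mem_EA.2 hQ)
  ne := fun a ha => (h.places.disjoint a ha).1
  e1 := fun a ha => (h.places.indefinite a ha).1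
  e2 := fun a ha => (h.places.indefinite a ha).2
  disj := fun a ha => (h.places.disjoint a ha).2
  sep := fun B₁ h1 h2 => h.separated B₁ (fun X hX => (comm_iff A X).2 (h1 X hX))
    fun X hX => h2 X ((comm_iff A X).1 hX)
  pd := by
    refine ⟨h.primePower, fun X hX h0 v hv => ?_, deg_eq A h.degree, ?_⟩
    · rcases h.division X ((comm_iff A X).2 hX) with h1 | h1
      · exact h1 v hv
      · exact absurd (LinearMap.ext fun v => h1 v) h0
    · intro N r hN hr hle φ h1 h2 h3
      rw [← centre_eq] at hle
      exact h.exponent N r hN hr hle φ (fun i =>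
        ⟨fun X Y hX hY => (h1 i).add X ((comm_iff A X).1 hX) Y ((comm_iff A Y).1 hY),
          fun X Y hX hY => (h1 i).mul X ((comm_iff A X).1 hX) Y ((comm_iff A Y).1 hY),
          (h1 i).one, fun X hX => (h1 i).zero X ((comm_iff A X).1 hX)⟩)
        (fun i j hij X Y hX hY => h2 i j hij X ((comm_iff A X).1 hX) Y ((comm_iff A Y).1 hY)) h3

variable (A) in
theorem RigidCentre.toRigid (hz : RigidCentre A) : N208.CT.Rigid A := by
  intro X hX hg Y hY
  refine dom_of_matrix (hz X ⟨hX.1, hX.2⟩ (fun T hT hTX Z hZ => ?_) Y ⟨hY.1, hY.2⟩)
  exact hg T hT hTX Z ⟨hZ.1, hZ.2⟩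

/-- **Theorem.** Let `z` be a central skew-symmetric endomorphism of the abelian variety `A` over `ℚ̄`
with a unitary part given by a division algebra of prime power degree `q` over a CM field, with
indefinite signatures at the places of `S`, with separation, and let the centre of the Lie algebra of
the Hodge group of `A` be rigid. Let `M` be a motive in the tensor category generated by `h^1(A)` and the Tate
motives, with the matrix `P` of periods and the complex structure `N`, such that the part of the Hodge
group of `A` which acts trivially on the eigenspaces for `± i a`, `a ∈ S`, acts trivially on the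
Mumford-Tate domain of `M`. Then the Mumford-Tate group of `M` is contained in every algebraic group
`G` over `ℚ` with a torsor over `ℚ̄` which contains `P`. -/
theorem result {g s n : ℕ} (A : AbVar g) (z : Module.End ℚ A.H1) (S : Finset ℝ) (q : ℕ)
    (hA : DivisionPart A z S q) (hc : RigidCentre A) (r : Fin s → ℕ) (w : Fin s → ℤ)
    (B : Fin n → Tensors A r) (P : Matrix (Fin n) (Fin n) ℂ) (hM : IsMotive w B P)
    (N : Matrix (Fin n) (Fin n) ℝ) (hN : IsComplexStructure B N) (hD : DomainOf z S B N)
    (G : Subgroup (GL (Fin n) ℂ)) (hG : IsAlgebraicSubgroup G) (T : Matrix (Fin n) (Fin n) ℂ)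
    (hT : ∀ i j, IsAlgebraic ℚ (T i j)) (hP : P ∈ torsor G T) :
    mumfordTate w B ≤ G := by
  obtain ⟨hM', Wt, hW⟩ : N208.AM.Mot w B P ∧ ∃ Wt, N208.AM.WRel w B Wt := by
    have hwt : ∃ M, N208.AM.WRel w B M := by
      obtain ⟨M, h⟩ := hM.weight
      refine ⟨M, fun a i => MultilinearMap.ext fun v => ?_⟩
      rw [_root_.smul_apply, _root_.sum_apply, smul_eq_mul, h a i v]
      rfl
    refine ⟨⟨hM.basis, fun X hX => ?_, hwt, hM.det, hM.deRham⟩, hwt⟩
    obtain ⟨M, h⟩ := hM.lie X hX
    refine ⟨M, fun a i => MultilinearMap.ext fun v => ?_⟩
    rw [N208.AM.dact_apply, _root_.sum_apply, h a i v]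
    rfl
  have hrelL : ∀ X M, N208.AM.Rel B X M ↔ IsLieMatrix B X M := by
    intro X M
    constructor
    · intro h a i v
      have h1 := congrArg (fun φ : MultilinearMap ℚ (fun _ : Fin (r i) => A.H1) ℚ => φ v) (h a i)
      simp only [N208.AM.dact_apply, _root_.sum_apply, _root_.smul_apply, smul_eq_mul] at h1
      exact h1
    · intro h a i
      refine MultilinearMap.ext fun v => ?_
      rw [N208.AM.dact_apply, _root_.sum_apply, h a i v]
      rfl
  have hb : ∀ j : Fin (2 * g), A.bas j = Pi.single j 1 := fun j => by
    unfold AbVar.bas
    rw [Pi.basisFun_apply]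
  have hrel : ∀ z R, N208.AM.HRel w B z R → IsHodgeMatrix w B z R := by
    intro z R h a i j
    have h1 := h a i j
    simp only [hb] at h1
    exact h1
  -- the group
  have hdet : T.det ≠ 0 := by
    obtain ⟨x, -, hxT⟩ := hP
    intro h0
    have h1 : (x : Matrix (Fin n) (Fin n) ℂ).det = 0 := by
      rw [hxT, Matrix.det_mul, h0, mul_zero]
    exact (Matrix.GeneralLinearGroup.det x).ne_zero h1
  obtain ⟨T', h1, h2⟩ := Pool.Agent.R917.alg_inv hT hdet
  obtain ⟨x, hx, hxT⟩ := hP
  have hH : N208.AM.PtM P _ := ⟨Pool.Agent.R917.algGrp_of hG, T, T', h1, h2, x, hx, hxT⟩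
  -- the complex structure
  have hNR : N208.AM.RelR B AbVar.JJ N := by
    intro a i
    refine Basis.ext_multilinear (fun _ => A.lam) fun j => ?_
    have h1 := hN a i j
    rw [N208.AM.dact_apply, _root_.sum_apply]
    have h2 : (fun p => A.lam (j p)) = fun p => A.per (Pi.single (j p) 1) := by
      funext p
      rw [← hb, A.per_bas]
    have h3 : ∀ b, (N b a • A.Phi (B b i)) (fun p => A.lam (j p)) =
        N b a * (B b i (fun p => Pi.single (j p) 1) : ℝ) := fun b => by
      rw [_root_.smul_apply, smul_eq_mul, h2, A.Phi_per]
    rw [Finset.sum_congr rfl fun b _ => h3 b, ← h1]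
    refine Finset.sum_congr rfl fun k _ => ?_
    rw [AbVar.JJ_apply, ← A.lam.sum_repr (Complex.I • A.lam (j k)), MultilinearMap.map_update_sum]
    simp only [A.lam.sum_repr]
    refine Finset.sum_congr rfl fun l _ => ?_
    rw [MultilinearMap.map_update_smul, smul_eq_mul]
    congr 1
    have h4 : A.lam l = A.per (Pi.single l 1) := by rw [← hb, A.per_bas]
    rw [h2, h4, N208.AM.update_per, A.Phi_per]
  have hα : N208.BT.DomU (N208.BT.US A z S) B N := by
    intro p hp h0
    refine hD p ?_ fun a ha x hx => h0 x ⟨a, ha, ?_⟩
    · refine (Submodule.span_mono ?_) hp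
      rintro _ ⟨X, hX, M, hM, rfl⟩
      refine ⟨X, ?_, M, (hrelL _ _).1 hM, rfl⟩
      refine (Submodule.span_mono ?_) hX
      rintro _ ⟨X, hX, Y, hY, rfl⟩
      exact ⟨X, hX, Y, hY, rfl⟩
    · have hz : z ∈ A.EA := A.mem_EA.2 hA.part.endo
      rcases hx with hx | hx
      · exact N208.BT.eig_mem_V0 hz rfl hx
      · exact N208.BT.eig_mem_V0 hz (by ring) hx
  refine sInf_le ⟨hG, fun u hu => ?_⟩
  obtain ⟨⟨y, hy, hy'⟩, h4⟩ := N208.CT.main_CT hM' hW hH (hc.toRigid A) (H943.DP.rpartDq (hA.toHD A)) hNR hα hu
  refine ⟨y, hy, ?_⟩
  rw [hy']
  exact hrel _ _ h4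

end Pool.Agent.Results.MP_caab05_ag.MumfordTatePrimePowerDegree
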