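import Mathlib
import Pool.Agent.H298.Core.TorsorA
import Pool.Agent.H298.Core.Main
import Pool.Agent.H298.Core.DoubleFactMain

/-!
# Period torsors: products of abelian varieties of type `A_1` and of CM type with small cores

Let `A` be an abelian variety over `ℚ̄` and let `M` be any André motive over `ℚ̄` in the tensor
category generated by `h^1(A)` and the Tate motives; by Arapura and André the motives of all smooth
projective varieties whose motives are of abelian type are of this kind. Let `P` be the matrix of
the periods of `M`, and let `G ⊆ GL(H_B(M))` be *any* algebraic group over `ℚ` such that the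
comparison isomorphism of `M` is a point of a torsor of `G` defined over `ℚ̄`: `P T ∈ G(ℂ)` for some
matrix `T` with algebraic entries. By theorems of Deligne and André the motivic Galois group of `M`
is its Mumford-Tate group `MT(M)`, and `P` is a point of a torsor of `MT(M)`. The conjecture says
that `P` is a generic point of this torsor; in particular it predicts that every such `G` contains
`MT(M)`. (The prediction for all motives in the tensor category of `M` is equivalent to: all de
Rham-Betti classes in the tensor constructions of `M` are Hodge classes.) We prove this prediction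
for all `M` and the following abelian varieties `A`. **Nothing is assumed about periods or Hodge
classes**: `AbVar` is the description of an abelian variety over `ℚ̄` by theta functions (see
`Y102/AVDefs.lean` in the library, where it is explained why every abelian variety has it), and the
theorems of Schneider-Lang and of Bost are proved in the library. The group `G` is not assumed to be
reductive.

**The Lie algebra.** Let `𝔤` be the Lie algebra of the endomorphisms of `H_1(A, ℚ)` which annihilate
all classes on the powers of `A` which are Hodge classes and de Rham-Betti classes (`InLie`); by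
Deligne's theorem this is the Lie algebra of the Hodge group of `A`. We assume that `𝔤 ⊗ ℂ` is the
sum of its centre, which may have any dimension, and of algebras `sl(2)`, which act on each
irreducible component of `H_1(A, ℂ)` by a tensor product of standard representations of some of them
(`TypeA1`). For example, `A` can be the product of any abelian variety of CM type and of

* any number of elliptic curves, of abelian surfaces with quaternionic multiplication, and of
  abelian varieties of dimension `e` or `2 e` with multiplication by a totally real field of degree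
  `e` or a totally indefinite quaternion algebra over it; or
* a power of an abelian fourfold of Mumford with Hodge group a form of `SL(2) ^ 3`, which acts by
  `V_1 ⊗ V_2 ⊗ V_3` (there are exceptional Hodge classes on the square; their algebraicity is not
  known and not used), or of their generalizations with `SL(2) ^ n`, `n` odd.

**Cores.** Let `E` be a CM field of degree `2 g`, `X` the set of its complex embeddings. The
automorphisms of `ℂ` which map all elements of `X` to themselves or to their complex conjugates are
called sign changes. The first core of `φ : X` consists of the `ψ : X` which are moved by the same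
sign changes as `φ`. If one uses all automorphisms which map the elements of the first core to
themselves or to their conjugates, one obtains the second core, inside of the first one, and so on
(`coreOf`). The cores of the same index have the same number `2 c` of elements, and `c` divides `g`
(`c = g` is possible). A core is primitive (`PrimitiveCore`) if `c` is a prime number, or if `c = [E
: F]` for a subfield `F`, not totally real, such that the automorphisms of `ℂ` act doubly
transitively on the extensions to `E` of an embedding of `F`. If `c = 1` then the odd rational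
functions on `X` are an irreducible representation of the automorphisms of `ℂ` (`OddIrreducible`).
Part three of the theorem (`AllFacts`) contains criteria. Let `2 ^ v` be the degree of the Galois
closure of `E` over the Galois closure of its maximal real subfield `E₀` (typically `v = g`). Then
there is a core with `c ≤ g / v` pairs. **If `v > g / 3` then the odd part of `E` is irreducible or
there is a core with two pairs; if the Galois group
of `E₀` is doubly transitive, and `g` is odd, or `g - 1` is a prime number, or at least `g` is none of
the numbers `10, 16, 26, 28, 36, …` (`TwoGraphDegree`), or if it is triply transitive and `g ≥ 3`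
(for example the symmetric group, or the alternating group if `g ≥ 5`), and `E` contains no imaginary
quadratic field, then the odd part of `E` is irreducible.** If `v > g / 4`, or if `v > 1` and `g` is
the product of two prime numbers, or generally if `E` has few divisors (`FewDivisors`, a condition
on `g`, `v` and the discriminants) then there is a core with `c = 1` or `c` prime.

**The type IV part** (`TypeIVPart`, `HasFields`). The algebra of the endomorphisms of `A` which are
central and skew-symmetric for the polarization is generated by one of them, `Y`; its minimal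
polynomial is (up to the factor `T`, if there are factors which are not of type IV) the product of
the minimal polynomials `p i` of generators `y i` of CM fields `E i`. On the image of `Y` the
endomorphisms of `H_1(A, ℚ)` which commute with all endomorphisms of `A` commute with each other:
the simple factors of type IV have complex multiplication. For every `i` some automorphism of `ℂ`
conjugates all embeddings of `E i` and fixes all embeddings of the `E j`, `j ≠ i` (no condition if
there is only one field).

**Theorem.** Let `A` be as above.

1. `G` contains the one-parameter groups of the actions on `M` of all commutators of elements of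
   `𝔤`.
2. Let `Z = h(Y)` be a central endomorphism of the type IV part, `h` an odd polynomial, such that
   for each `i` (`TraceCondition`) the odd part of `E i` is irreducible, or `E i` has a primitive
   core with `c` pairs, and `c = 2` or the traces of `h(y i)` to all subfields `F` with `[E i : F] =
   c` which are not totally real are zero. Then `G` contains the one-parameter group of the action
   of `Z` on `M`. If for each `i` (`RealCore`) the odd part of `E i` is irreducible, or `E i` has a
   primitive core with `c` pairs and `c = 2` or all subfields `F` with `[E i : F] = c` are totally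
   real, then **`G` contains `MT(M)`**, for all motives `M` in the tensor category generated by
   `h^1(A)`.
3. The criteria for cores.

**What was known.** For the product of an elliptic curve with complex multiplication and for Tate
motives the full statement about the transcendence degree. In the library: the de Rham-Betti classes
on the powers of `A` (`TypeA1`), if the centre of `𝔤` is rigid (for instance zero, or of dimension
one: elliptic curves with complex multiplication), 1-motives under the same hypothesis
(`OneMotivesTypeA1`), and simple abelian varieties with complex multiplication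
(`CMPrimeOrTwoTransitive`). New here are the centres (the cores; of arbitrary dimension), all
motives `M` in the tensor category, and groups `G` which are not reductive. The pure case of CM type
is in `SmallCoreMotives`.

## Motives

As `h^1(A)` is dual to `h^1(A)(1)`, the motive `M` is a direct factor of a sum of motives `h^1(A) ^
{⊗ r i} (w i)`. Its Betti realization is a space of families of multilinear forms with rational
values, in `r i` variables in `H_1(A, ℚ)`, with a basis `B`. It is the image of a motivated
projector, and the realizations of motivated classes are Hodge classes and de Rham-Betti classes; so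
it is stable under the Lie algebra `𝔤` and under the weights. The de Rham realization has a basis
which consists of combinations of products of elements of `H^1_dR(A / ℚ̄)` with algebraic
coefficients. The matrix `P` of the periods expresses it in terms of the basis `(2 π i) ^ (w i) B`
of the Betti realization (`IsMotive`).

## Proof

Let `L` be the Lie algebra of `G`, and let `𝔮` be the set of the `X` in `𝔤` whose action on `M` is
in `L` up to a multiple of the weight operator. By the theorem of Schneider and Lang `𝔮` acts
semisimply on `H_1(A, ℚ)`, with the same commutant as `𝔤` (library). By the theorem on subalgebras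
of Lie algebras of type `A_1` in the library, `𝔮` contains the commutators of `𝔤`; the weight
operator is in `L`. A generic element `f(Y)` of the intersection of `𝔮` with the centre of `𝔤` has
different values at all embeddings of the `E i` (`CMCentre.separates`): the algebra generated by `𝔮`
acts on the type IV part by polynomials in `Y`, and contains `Y`. By the theorem on replicas
(Chevalley) `h(Y)` acts on `M` by an element of `L` if all relations `∑ f(x_k) = 0` between the
conjugates imply `∑ h(x_k) = 0`. Some `ℚ`-linear function `ℂ → ℚ` has different values at the `f(φ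
(y i))`; so we obtain a function `w` on the embeddings, odd and injective with rational values, such
that `n(s)`, the multiplicity of `s` minus the one of `- s`, is orthogonal to all conjugates of `w`.
By sign changes one can cut `n` down to a relation which is supported in one core. If `c` is prime,
a Sylow subgroup of the stabilizer of the core contains an element with two orbits of length `c` on
the core, exchanged by the complex conjugation, and by the irreducibility of the cyclotomic
polynomial `n` is constant on these orbits; in the doubly transitive case one averages over a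
stabilizer. The orbit consists of the extensions of an embedding of a subfield `F` with `[E : F] =
c`, which is not totally real, and `n` comes from `F` (`structure_of_separating`). So `n = 0`, or
the relation holds for all `h` whose traces to `F` are zero. For the last statement one decomposes
the components of the complex structure, which are in `𝔤`, into central parts and commutators.
-/

set_option autoImplicit false

open Module Matrix Polynomial Pool.Agent.Y102 Pool.Agent.W516.DR Pool.Agent.H204R3.GP
open NumberField Pool.Agent.H298.Core

noncomputable section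

namespace Pool.Agent.Results.MP_caab05_ag.SmallCoreTypeA1

variable {g : ℕ} (A : AbVar g)

/-! ### Endomorphisms -/

/-- `P` is an endomorphism of `A` (up to isogeny), in terms of its action on `H_1(A, ℚ)`: it respects
the de Rham structure. (By the theorem of Bost, which is proved in `Pool.Agent.Y102.AbVar.hodge_end`,
these are the elements of `End(A) ⊗ ℚ`.) -/
def IsEndomorphism (P : Module.End ℚ A.H1) : Prop := IsDeRhamBettiEnd QBar A.dR P

/-- The endomorphism `X` of `H_1(A, ℚ)` commutes with the endomorphisms of `A`. -/
def Commutes (X : Module.End ℚ A.H1) : Prop := ∀ Q, IsEndomorphism A Q → X * Q = Q * X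

/-- The Riemann form of the polarization, on the rational homology. -/
def polarization : A.H1 →ₗ[ℚ] A.H1 →ₗ[ℚ] ℚ := A.om

/-- `X` is skew-symmetric for the polarization. -/
def IsSkewSymmetric (X : Module.End ℚ A.H1) : Prop :=
  ∀ u v, polarization A (X u) v + polarization A u (X v) = 0

/-- `R` is an endomorphism which is skew-symmetric and central in the algebra of endomorphisms. -/
def IsCentralSkew (R : Module.End ℚ A.H1) : Prop :=
  IsEndomorphism A R ∧ IsSkewSymmetric A R ∧ ∀ Q, IsEndomorphism A Q → R * Q = Q * R

/-- The central skew-symmetric endomorphisms are polynomials in one of them, `Y`, and the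
endomorphisms of `H_1(A, ℚ)` which commute with the endomorphisms of `A` commute with each other on the
image of `Y`: the simple factors of type IV have complex multiplication. -/
structure TypeIVPart (Y : Module.End ℚ A.H1) : Prop where
  central : IsCentralSkew A Y
  generates : ∀ R, IsCentralSkew A R → R ∈ Algebra.adjoin ℚ {Y}
  commutative : ∀ X X', Commutes A X → Commutes A X' → (X * X' - X' * X) * Y = 0

/-- The minimal polynomial of `Y` is, up to the factor `T`, the product of the minimal polynomials
`p i` of the generators `y i` of the CM fields `E i`, and for every `i` some automorphism of the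
complex numbers changes the sign of all roots of `p i` and fixes all roots of the `p j`, `j ≠ i`. -/
structure HasFields (Y : Module.End ℚ A.H1) {k : ℕ} (p : Fin k → ℚ[X]) (E : Fin k → Type)
    [∀ i, Field (E i)] [∀ i, NumberField (E i)] [∀ i, IsCMField (E i)] (y : ∀ i, E i) : Prop where
  defines : ∀ i, Defines (p i) (E i) (y i)
  factor : ∀ i, p i ∣ minpoly ℚ Y
  minpoly_dvd : minpoly ℚ Y ∣ X * ∏ i, p i
  independent : ∀ i, ∃ σ : ℂ ≃+* ℂ, (∀ z, aeval z (p i) = 0 → σ z = -z) ∧
    ∀ j, j ≠ i → ∀ z, aeval z (p j) = 0 → σ z = z

/-! ### The Lie algebra -/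

/-- The multilinear forms in `2m` variables in the rational homology. -/
abbrev Form (m : ℕ) : Type := MultilinearMap ℚ (fun _ : Fin m × Fin 2 => A.H1) ℚ

/-- `φ` is a de Rham-Betti class in `H^1(A) ^ {⊗ 2m} (m)`. -/
def IsDRB {m : ℕ} (φ : Form A m) : Prop :=
  IsDeRhamBettiForm QBar A.dR (2 * Real.pi * Complex.I) m φ

/-- `φ` is a Hodge class in `H^1(A) ^ {⊗ 2m} (m)`. -/
def IsHodge {m : ℕ} (φ : Form A m) : Prop := IsHodgeTensor (A.per : A.H1 →+ (Fin g → ℂ)) φ

/-- The endomorphism `X` annihilates the form `φ` (as a derivation). -/
def Annihilates {m : ℕ} (X : Module.End ℚ A.H1) (φ : Form A m) : Prop :=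
  ∀ v, ∑ k, φ (Function.update v k (X (v k))) = 0

/-- `X` is in the Lie algebra `𝔤`: it annihilates all classes that are Hodge classes and
de Rham-Betti classes. -/
def InLie (X : Module.End ℚ A.H1) : Prop :=
  ∀ (m : ℕ) (φ : Form A m), IsHodge A φ → IsDRB A φ → Annihilates A X φ

/-- The algebra of the endomorphisms of `H_1(A, ℂ)`, as matrices for the basis of the lattice (acting
on columns). -/
abbrev EndC (_ : AbVar g) : Type := Matrix (Fin (2 * g)) (Fin (2 * g)) ℂ

/-- The matrix of the extension of an endomorphism of `H_1(A, ℚ)` to `H_1(A, ℂ)`. -/
def toC (X : Module.End ℚ A.H1) : EndC A := Matrix.of fun i j => (X (Pi.single j 1) i : ℂ)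

/-- The complex Lie algebra `𝔤 ⊗ ℂ`, acting on `H_1(A, ℂ)`. -/
def lieC : Submodule ℂ (EndC A) := Submodule.span ℂ {Y | ∃ X, InLie A X ∧ Y = toC A X}

/-- The algebra of the matrices of size two. -/
abbrev M2 : Type := Matrix (Fin 2) (Fin 2) ℂ

/-- `z` commutes with the Lie algebra `𝔤 ⊗ ℂ`. -/
def Central (z : EndC A) : Prop := ∀ Y ∈ lieC A, z * Y = Y * z

/-- The Lie algebra `𝔤 ⊗ ℂ` is the sum of its centre and of algebras `sl(2)`, acting by tensor
products of standard representations. The `φ i` are homomorphisms (not preserving the unit) from the
algebra of the matrices of size two to the endomorphisms of `H_1(A, ℂ)` with commuting images; `φ i 1`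
is the projection to the sum of the irreducible components on which the factor `i` acts non-trivially.
The last condition: for two factors `i`, `k` either both act non-trivially on some irreducible
component, or there is an irreducible representation `W` of the other factors and of the centre such
that `V_i ⊗ W` and `V_k ⊗ W` are components of `H_1(A, ℂ)` (`V_i` is the standard representation of the
factor `i`). -/
def TypeA1 : Prop := ∃ (n : ℕ) (φ : Fin n → M2 →ₗ[ℂ] EndC A),
  (∀ i a b, φ i (a * b) = φ i a * φ i b) ∧
  (∀ i k, i ≠ k → ∀ a b, φ i a * φ k b = φ k b * φ i a) ∧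
  (∀ i, φ i 1 ≠ 0) ∧
  (∀ i (x : M2), x.trace = 0 → φ i x ∈ lieC A) ∧
  (∀ X ∈ lieC A, ∃ ξ : Fin n → M2, (∀ i, (ξ i).trace = 0) ∧ Central A (X - ∑ i, φ i (ξ i))) ∧
  ∀ i k, i ≠ k → φ i 1 * φ k 1 ≠ 0 ∨ ∃ N : EndC A, N ≠ 0 ∧ φ i 1 * N = N ∧ N * φ k 1 = N ∧
    (∀ l, l ≠ i → l ≠ k → ∀ a, N * φ l a = φ l a * N) ∧ ∀ z ∈ lieC A, Central A z → N * z = z * N

/-! ### Motives -/

variable {s n : ℕ} (r : Fin s → ℕ) (w : Fin s → ℤ)

/-- The Betti realization of the sum of the motives `h^1(A) ^ {⊗ r i} (w i)`: families of multilinear
forms in `r i` variables in the rational homology. -/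
abbrev Tensors : Type := ∀ i : Fin s, MultilinearMap ℚ (fun _ : Fin (r i) => A.H1) ℚ

variable {A r}

/-- `M` is the matrix of the action of the endomorphism `X` of the rational homology of `A` (as a
derivation) on the space of tensors with the basis `B`. -/
def IsLieMatrix (B : Fin n → Tensors A r) (X : Module.End ℚ A.H1)
    (M : Matrix (Fin n) (Fin n) ℚ) : Prop :=
  ∀ a i v, ∑ k, B a i (Function.update v k (X (v k))) = ∑ b, M b a * B b i v

/-- The subspace with the basis `B` is the Betti realization of a direct factor `M` of the sum of the
motives `h^1(A) ^ {⊗ r i} (w i)`, and `P` is the matrix of the periods of `M` for the basis `B` and for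
some basis of the de Rham realization of `M` over `ℚ̄`. -/
structure IsMotive (B : Fin n → Tensors A r) (P : Matrix (Fin n) (Fin n) ℂ) : Prop where
  /-- `B` is a basis of a subspace -/
  basis : LinearIndependent ℚ B
  /-- the subspace is stable under `𝔤` -/
  lie : ∀ X, InLie A X → ∃ M : Matrix (Fin n) (Fin n) ℚ, IsLieMatrix B X M
  /-- the subspace is stable under the weights -/
  weight : ∃ M : Matrix (Fin n) (Fin n) ℚ, ∀ a i v,
    ((r i : ℚ) - 2 * w i) * B a i v = ∑ b, M b a * B b i v
  /-- the de Rham realization has a basis of elements with algebraic coefficients in terms of the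
  tensor products of the elements of the basis of `H^1_dR(A / ℚ̄)` -/
  deRham : ∃ c : Fin n → ∀ i : Fin s, (Fin (r i) → Fin g ⊕ Fin g) → ℂ,
    (∀ a i J, IsAlgebraic ℚ (c a i J)) ∧ ∀ a i (v : Fin (r i) → A.H1),
      ∑ J, c a i J * ∏ k, A.dR (J k) (v k) =
        (2 * Real.pi * Complex.I) ^ (w i) * ∑ b, P b a * (B b i v : ℂ)
  /-- the matrix of the periods is invertible -/
  det : P.det ≠ 0

/-! ### Algebraic groups, torsors and the Mumford-Tate group -/

/-- A subgroup of `GL_R(ℂ)` defined by polynomials with rational coefficients. -/
def IsAlgebraicSubgroup {R : Type} [Fintype R] [DecidableEq R] (G : Subgroup (GL R ℂ)) : Prop :=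
  ∃ I : Set (MvPolynomial (R × R) ℚ), ∀ x : GL R ℂ, x ∈ G ↔
    ∀ p ∈ I, MvPolynomial.aeval (fun b : R × R => (x : Matrix R R ℂ) b.1 b.2) p = 0

/-- The torsor `G · T⁻¹` of `G`: the matrices `F` such that `F T` is an element of `G`. It is
defined over `ℚ̄` if `T` is a matrix with algebraic entries. -/
def torsor (G : Subgroup (GL (Fin n) ℂ)) (T : Matrix (Fin n) (Fin n) ℂ) :
    Set (Matrix (Fin n) (Fin n) ℂ) :=
  {F | ∃ x ∈ G, (x : Matrix (Fin n) (Fin n) ℂ) = F * T}

variable (A) in
/-- The Hodge structure of `H^1(A)`: the complex number `z` acts on `H_1(A, ℝ) = ℂ ^ g` by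
multiplication, and on `H^1(A, ℝ)` by the transposed map, here in the basis of `H^1(A, ℚ)` which is
dual to the basis of the lattice. -/
def hodge (z : ℂ) : Matrix (Fin (2 * g)) (Fin (2 * g)) ℂ :=
  Matrix.of fun i j => ((A.lam.repr (z • A.lam i) j : ℝ) : ℂ)

/-- `R` is the matrix of the action of the complex number `z` on `M`, in the Hodge structure given by
those of `H^1(A)` and of the Tate motives (`z` acts on `ℚ(1)` by `(z z̄)⁻¹`). -/
def IsHodgeMatrix (B : Fin n → Tensors A r) (z : ℂ) (R : Matrix (Fin n) (Fin n) ℂ) : Prop :=
  ∀ a i (j : Fin (r i) → Fin (2 * g)),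
    ∑ j' : Fin (r i) → Fin (2 * g), (∏ k, hodge A z (j k) (j' k)) *
        (B a i (fun k => Pi.single (j' k) 1) : ℂ) =
      (z * (starRingEnd ℂ) z) ^ (w i) * ∑ b, R b a * (B b i (fun k => Pi.single (j k) 1) : ℂ)

/-- The Mumford-Tate group of `M`: the smallest algebraic group over `ℚ` which contains the image of
the Deligne torus. -/
def mumfordTate (B : Fin n → Tensors A r) : Subgroup (GL (Fin n) ℂ) :=
  sInf {G | IsAlgebraicSubgroup G ∧ ∀ z : ℂ, z ≠ 0 → ∃ x ∈ G,
    IsHodgeMatrix w B z (x : Matrix (Fin n) (Fin n) ℂ)}

/-- The group `G` contains `exp (t M)` for all complex numbers `t`. -/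
def ContainsExp (G : Subgroup (GL (Fin n) ℂ)) (M : Matrix (Fin n) (Fin n) ℚ) : Prop :=
  ∀ t : ℂ, ∃ x ∈ G, (x : Matrix (Fin n) (Fin n) ℂ) =
    NormedSpace.exp (t • M.map fun q => (q : ℂ))

/-! ### Translations -/

theorem mem_ZA (R : Module.End ℚ A.H1) : R ∈ A.ZA ↔ IsCentralSkew A R := by
  constructor
  · rintro ⟨h1, h2, h3⟩
    exact ⟨A.mem_EA.1 h1, h2, fun Q hQ => h3 Q (A.mem_EA.2 hQ)⟩
  · rintro ⟨h1, h2, h3⟩
    exact ⟨A.mem_EA.2 h1, h2, fun Q hQ => h3 Q (A.mem_EA.1 hQ)⟩

theorem TypeIVPart.centre {Y : Module.End ℚ A.H1} (h : TypeIVPart A Y) : CMCentre A Y where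
  mem := (mem_ZA Y).2 h.central
  gen := fun R hR => h.generates R ((mem_ZA R).1 hR)
  comm := fun X X' hX hX' => h.commutative X X' (fun Q hQ => hX Q (A.mem_EA.2 hQ))
    fun Q hQ => hX' Q (A.mem_EA.2 hQ)

theorem HasFields.fields {Y : Module.End ℚ A.H1} {k : ℕ} {p : Fin k → ℚ[X]} {E : Fin k → Type}
    [∀ i, Field (E i)] [∀ i, NumberField (E i)] [∀ i, IsCMField (E i)] {y : ∀ i, E i}
    (h : HasFields A Y p E y) : Fields (minpoly ℚ Y) p E y :=
  ⟨h.defines, h.factor, h.minpoly_dvd, h.independent⟩

theorem rel_iff (B : Fin n → Tensors A r) (X : Module.End ℚ A.H1)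
    (M : Matrix (Fin n) (Fin n) ℚ) : N208.AM.Rel B X M ↔ IsLieMatrix B X M := by
  constructor
  · intro h a i v
    have h1 := congrArg (fun φ : MultilinearMap ℚ (fun _ : Fin (r i) => A.H1) ℚ => φ v) (h a i)
    simp only [N208.AM.dact_apply, _root_.sum_apply, _root_.smul_apply, smul_eq_mul] at h1
    exact h1
  · intro h a i
    refine MultilinearMap.ext fun v => ?_
    rw [N208.AM.dact_apply, _root_.sum_apply, h a i v]
    rfl

theorem IsMotive.mot {B : Fin n → Tensors A r} {P : Matrix (Fin n) (Fin n) ℂ}
    (hM : IsMotive w B P) : N208.AM.Mot w B P ∧ ∃ Wt, N208.AM.WRel w B Wt := by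
  have hwt : ∃ M, N208.AM.WRel w B M := by
    obtain ⟨M, h⟩ := hM.weight
    refine ⟨M, fun a i => MultilinearMap.ext fun v => ?_⟩
    rw [_root_.smul_apply, _root_.sum_apply, smul_eq_mul, h a i v]
    rfl
  refine ⟨⟨hM.basis, fun X hX => ?_, hwt, hM.det, hM.deRham⟩, hwt⟩
  obtain ⟨M, h⟩ := hM.lie X hX
  exact ⟨M, (rel_iff B X M).2 h⟩

theorem pt {P : Matrix (Fin n) (Fin n) ℂ} {G : Subgroup (GL (Fin n) ℂ)}
    (hG : IsAlgebraicSubgroup G) {T : Matrix (Fin n) (Fin n) ℂ}
    (hT : ∀ i j, IsAlgebraic ℚ (T i j)) (hP : P ∈ torsor G T) :
    N208.AM.PtM P {M | ∃ x ∈ G, (x : Matrix (Fin n) (Fin n) ℂ) = M} := by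
  have hdet : T.det ≠ 0 := by
    obtain ⟨x, -, hxT⟩ := hP
    intro h0
    have h1 : (x : Matrix (Fin n) (Fin n) ℂ).det = 0 := by
      rw [hxT, Matrix.det_mul, h0, mul_zero]
    exact (Matrix.GeneralLinearGroup.det x).ne_zero h1
  obtain ⟨T', h1, h2⟩ := Pool.Agent.R917.alg_inv hT hdet
  obtain ⟨x, hx, hxT⟩ := hP
  exact ⟨Pool.Agent.R917.algGrp_of hG, T, T', h1, h2, x, hx, hxT⟩

theorem mumfordTate_le {B : Fin n → Tensors A r} {G : Subgroup (GL (Fin n) ℂ)}
    (hG : IsAlgebraicSubgroup G) (h : ∀ z : ℂ, z ≠ 0 → ∃ K : Matrix (Fin n) (Fin n) ℂ,
      (∃ x ∈ G, (x : Matrix (Fin n) (Fin n) ℂ) = K) ∧ N208.AM.HRel w B z K) :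
    mumfordTate w B ≤ G := by
  have hb : ∀ j : Fin (2 * g), A.bas j = Pi.single j 1 := fun j => by
    unfold AbVar.bas
    rw [Pi.basisFun_apply]
  refine sInf_le ⟨hG, fun u hu => ?_⟩
  obtain ⟨K, ⟨x, hx, hxK⟩, h4⟩ := h u hu
  refine ⟨x, hx, ?_⟩
  rw [hxK]
  intro a i j
  have h1 := h4 a i j
  simp only [hb] at h1
  exact h1

theorem TypeA1.comm {A : AbVar g} (hA : TypeA1 A) {𝔥 : Submodule ℚ (Module.End ℚ A.H1)}
    (h : A.Full 𝔥) {X Y : Module.End ℚ A.H1} (hX : X ∈ A.NA) (hY : Y ∈ A.NA) :
    X * Y - Y * X ∈ 𝔥 := by
  obtain ⟨n, φ, h1, h2, h3, h4, h5, h6⟩ := hA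
  have ht : TA.TypeA φ (Submodule.span ℂ {Y | ∃ X ∈ A.NA, Y = Pool.Agent.Y102.toC X}) :=
    ⟨h1, h2, h3, h4, h5, h6⟩
  exact h.of_typeA' ht hX hY

/-- **Products of type `A_1` and CM type**: every group of a period torsor contains the
Mumford-Tate group. -/
theorem result {g s n : ℕ} (A : AbVar g) (hA : TypeA1 A) (r : Fin s → ℕ) (w : Fin s → ℤ)
    (B : Fin n → Tensors A r) (P : Matrix (Fin n) (Fin n) ℂ) (hM : IsMotive w B P)
    (G : Subgroup (GL (Fin n) ℂ)) (hG : IsAlgebraicSubgroup G) (T : Matrix (Fin n) (Fin n) ℂ)
    (hT : ∀ i j, IsAlgebraic ℚ (T i j)) (hP : P ∈ torsor G T) :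
    -- 1
    (∀ X X', InLie A X → InLie A X' → ∀ M : Matrix (Fin n) (Fin n) ℚ,
      IsLieMatrix B (X * X' - X' * X) M → ContainsExp G M) ∧
    -- 2
    (∀ (Y : Module.End ℚ A.H1) {k : ℕ} (p : Fin k → ℚ[X]) (E : Fin k → Type)
      [∀ i, Field (E i)] [∀ i, NumberField (E i)] [∀ i, IsCMField (E i)] (y : ∀ i, E i),
      TypeIVPart A Y → HasFields A Y p E y →
      (∀ h : ℚ[X], h.comp (-X) = -h → (∀ i, TraceCondition (E i) (aeval (y i) h)) →
        ∀ M : Matrix (Fin n) (Fin n) ℚ, IsLieMatrix B (aeval Y h) M → ContainsExp G M) ∧
      ((∀ i, RealCore (E i)) → mumfordTate w B ≤ G)) ∧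
    -- 3
    AllFacts := by
  obtain ⟨hM', Wt, hW⟩ := hM.mot
  have hH := pt hG hT hP
  obtain ⟨N, hN, -⟩ := N208.AM.exists_J hM'
  have hfull := N208.AM.qM_full hM' hW hH
  have hd : ∀ X ∈ A.NA, ∀ Z ∈ A.NA, X * Z - Z * X ∈ N208.AM.qM B Wt _ := fun X hX Z hZ =>
    hA.comm hfull hX hZ
  refine ⟨fun X X' hX hX' M hM t => ?_, ?_, allFacts_hold⟩
  · have h2 := mem_LQ_of_qM hM' hW hH (hd X hX X' hX') ((rel_iff B _ M).2 hM)
    exact Pool.Agent.R917.exp_mem hH.grp fun d => (h2 d).smul t
  · rintro Y k p E _ _ _ y hY hE
    refine ⟨fun h hh hC M hMZ t => ?_, fun hC => ?_⟩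
    · have hZA : aeval Y h ∈ A.ZA := by
        have h1 := hY.centre.mem
        refine ⟨A.aeval_mem h1.1 h, ?_, fun Q hQ => A.aeval_comm (h1.2.2 Q hQ) h⟩
        exact Pool.Agent.W5h86.CC.skew_odd A h1.2.1 hh
      have h2 := mem_core hY.centre hE.fields hM' hW hH hZA hh rfl hC ((rel_iff B _ M).2 hMZ)
      exact Pool.Agent.R917.exp_mem hH.grp fun d => (h2 d).smul t
    · exact mumfordTate_le w hG fun z hz => ⟨_, mt_der hM' hW hH hd hY.centre hE.fields hC hN hz⟩

end Pool.Agent.Results.MP_caab05_ag.SmallCoreTypeA1
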