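import Pool.Agent.H885.Mono
import Pool.Agent.H885.UnifG
import Pool.Agent.H885.Cnt
import Pool.Graph.R_seed8.H340R2.LW

/-!
# The strong form of the period conjecture in bounded degree, for motives over number fields

For `j = 1, …, N` let `X_j → B_j` be a family of varieties over a **number field** `F`, `B_j` open in the affine space of **any
dimension `m`**, `0 ∈ B_j(F)`, and let `P_j(x) = C_j Z_j(x)` be the period matrix of the motive `M_j` of rank `n` over `F` of the
fibre over `x`; `Z_j` is a fundamental matrix of the Gauss-Manin connection (a matrix of G-functions over `F` in the `m`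
variables `x`) and `C_j` is the matrix of the periods of the central fibre. All points of `B_j(F)` can be written in the form
`x_j = a_j / b_j` with `a_j ∈ 𝓞_F^m` and `b_j ∈ ℕ`. The number field is embedded in `ℂ` by arbitrary embeddings `φ_j`. The
**strong form of the period conjecture** says that all polynomial relations with algebraic coefficients between the periods
come from algebraic cycles, that is, they hold on the torsor of the motivic Galois group. This implies that the transcendence
degree of the periods is the dimension of this group.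

We assume that the family is as general as its known algebraic relations permit. More exactly (`Fibres.Valid`): the group
is `T G`, where `G` is the Zariski closure of the monodromy (the differential Galois group), and `T` is a torus of dimension
`t` which multiplies `M_j` by the character `τ ↦ ∏ τ_i ^ v_(i j)`; the periods of `T` are `t` algebraically independent numbers
`θ_1, …, θ_t`, and there is a set `ℱ` of relations `f(P)² = ∏ θ_i ^ d_i q`, `q` algebraic, where `f` is a polynomial with
algebraic coefficients which is homogeneous of weight `d_i` for the `i`-th character, such that all directions tangent to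
these relations are in the Lie algebra of `G`. The most important case is `t = 1`, `θ = 2 π i` (`pi_independent`: Lindemann),
`v_j` the weight of `M_j`, and `ℱ` consists of the relations of Riemann and Legendre `P_jᵀ J_j P_j = (2 π i) ^ v_j Q_j`, with
the intersection form `J_j` and the pairing `Q_j` on algebraic de Rham cohomology; then the condition on `ℱ` says that the Lie
algebra of `G` contains the product of the Lie algebras of the symplectic or orthogonal groups of the forms `J_j`
(`known_polarized`, `tangent_polarized`), that is, **big monodromy**, as for the families of hypersurfaces, complete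
intersections, curves, abelian varieties. If the motivic group is `T G` for another group `G` (unitary, exceptional,
spin, …) one can take for `ℱ` the relations given by motivated cycles; for unitary families over an imaginary quadratic field
`t = 2` and the independence of the `θ_i` is the theorem of Chudnovsky.

If `t = 0` then no relations are used and there is no condition for the family. The theorem then says that the relations with
algebraic coefficients between the periods hold on the orbit of the connected differential Galois group. In this case one may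
also take the periods over a part of the cycles (the matrices `C_j` need not be invertible).

**Theorem.** Fix a number field `F` and `m, n, N, q, s, t, e, δ`. There is `E` with the following property for all `M`, all complex
numbers `β_1, …, β_s`, all `H, h, w` and all `b₀ ≥ (2 H (h + w + 2))^E`. We consider

* **all** tuples `b_1, …, b_N` of denominators in the window `[b₀, b₀ + w]`, at most `M` of them different, such that the
  distances of different `b_j` are larger than `2^(m+1) H (h + 2)`,
* **all** families over `F` over bases of dimension `m`, that is, all `n × n` systems `T ∂Z_j / ∂x_i = Z_j A_{j i}` of degree at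
  most `q`, for which the height of the system and the growth constants of the coefficients and of the denominators of
  `Z_j` and `Z_j⁻¹` are at most `H` (the size of an element of `F` is its house, the maximum of the absolute values of the
  conjugates), and all embeddings `φ_j : F → ℂ`,
* **all** numerators `a_j ∈ 𝓞_F^m` with `house(a_j) ≤ h`; if `0` is a pole of the system then the line `F a_j` must not be
  contained in the polar locus `T = 0`,
* **all** central fibres with periods (entries of the `C_j`) algebraic of degree at most `e` over `ℚ(β_1, …, β_s)`,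
* all `θ`, `v`, `ℱ` as above (without any bound for the degrees and coefficients).

The tuple of fibres is called generic (`Fibres.Generic`) if **every** polynomial `S` of degree at most `δ` in the entries of the
`N` period matrices, the coefficients of which are algebraic numbers of degree at most `e` (of arbitrary height), and which
vanishes at the periods `C_j Z_j(a_j / b_j)`, vanishes at all points `((∏ τ_i ^ v_(i j)) C_j g_j Z_j(a_j / b_j))_j`, where
`τ ∈ (ℂ^*)^t` and `g ∈ G°`. Here `G°` is the group generated by the exponentials of **all** infinitesimal symmetries of the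
system formed by the restrictions of the `φ_j(Z_j)` to the lines `F a_j` (for points with different denominators the
symmetries are independent of each other). Then:

1. In every family of tuples of fibres as above, of any families of varieties over `F`, the denominators of which are at
   distance larger than `2^(m+1) H (h + 2)` for different tuples, at most `s` of the tuples are not generic.
2. There is a set `𝓔` of at most `M s` denominators such that **all** tuples of fibres as above the denominators of which are
   at distance larger than `2^(m+1) H (h + 2)` from the elements of `𝓔` are generic. The set `𝓔` depends on `β_1, …, β_s`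
   and on the window only, not on the families, the embeddings, the central fibres, the points, the number fields or the
   relations.
3. Without windows: there is `k`, which depends only on `F, m, n, N, q, s, t, e, δ`, such that for all `β_1, …, β_s`, `H` and `h`
   the number of the integers `b ≤ B` which are the denominators of some tuple of fibres over points `a_j / b` as above, of any
   families over `F`, which is not generic, is `O(B^(1 - 1/k))`.

If the periods of the central fibres are algebraic (`s = 0`) there are no exceptions for large `b`.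

What is known. `RelationsOverNumberFields` (MP_290158_ag) is relative to the periods of the central fibres: it says that the
relations with coefficients algebraic over `ℚ(β)` hold on the orbits of `G°`, but nothing about the torus, and the field of
coefficients contains the periods of the central fibres (it contains `π`). `DefectsOverNumberFields`
(MP_57341d_ag) bounds the transcendence degree in the situation of the present theorem; it says nothing about which relations
hold. For **one fixed one-parameter** family there are `AllFamiliesWindows` (MP_290158_ag), `AllTuplesInWindows`,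
`HyperellipticAllTuples` (this problem), and for almost all algebraic points of a fixed family results with bounded
**height** of the relations (`ConnectedFamilies`, `NearEveryPoint`, `MonodromyDimension`).

Bounded degree is essential for the method: nothing is said about relations of degree larger than `δ`. That the
period matrices of families have the form `C Z(x)` with `Z` as above, and the interpretation of `T G` as the motivic Galois
group, are from the literature and not part of the Lean theorem.

Proof (`Pool/Agent/H885`). The restriction of scalars `R_j` of `Z_j` is a fundamental matrix of a system over `ℚ` (`NF1`,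
`NF2`), and the infinitesimal symmetries of the `φ_j(Z_j)` lift to symmetries of the `R_j` (`sym_lift`). An ultraproduct of a
sequence of counterexamples has, for each of the `s + 1` separated tuples and each symmetry, a derivation of `*ℂ` over `*ℚ` which
moves the values at this tuple by the symmetry and kills the values at all other tuples (`derF`). Since there are
only `s` numbers `β_i`, there is one of the tuples for which all symmetries are realised by derivations which kill the `β_i`,
hence the `C_j`. Moreover there are derivations of `ℂ` which multiply `θ_i` by `2` and kill the other `θ`; since they respect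
the relations in `ℱ` they move the periods in the direction of the torus up to an element of the Lie algebra of `G`
(`exists_tor`). The spaces of symmetries are spanned by algebraic matrices (`symF_rat`). So the set of relations of bounded
degree with algebraic coefficients which vanish at the periods is stable under the vector fields of `T` and of the algebraic
symmetries (`absO`), and a space of polynomials which is stable under the vector fields and vanishes at a point vanishes on its
orbit.
-/

set_option autoImplicit false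

open PowerSeries Filter NumberField
open scoped Matrix

namespace Pool.Agent.Results.MP_caab05_ag.StrongFormInBoundedDegree

section several
variable {F : Type} [Field F] [NumberField F] {n m N : ℕ}

/-- a polynomial in `m` variables with coefficients in the ring of integers `𝓞 F` as a power series with coefficients in `F` -/
noncomputable def toSeries (P : MvPolynomial (Fin m) (𝓞 F)) : MvPowerSeries (Fin m) F :=
  ((P.map (algebraMap (𝓞 F) F) : MvPolynomial (Fin m) F) : MvPowerSeries (Fin m) F)

/-- the partial derivative `∂f / ∂x_i` -/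
noncomputable def partialD (i : Fin m) (f : MvPowerSeries (Fin m) F) : MvPowerSeries (Fin m) F :=
  fun ν => ((ν i : F) + 1) * MvPowerSeries.coeff (ν + Finsupp.single i 1) f

/-- `Z` is an invertible `n × n` matrix of G-functions in `m` variables with coefficients in the number field `F`, `W = Z⁻¹`,
which solves the system `T ∂Z / ∂x_i = Z A_i`, `i = 1, …, m`. The degrees of `T` and `A_i` are at most `q`; the
houses of their coefficients and the growth of the coefficients of `Z` and of the denominators of the
coefficients of `Z` and `W` are bounded by `H`. -/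
structure Family (q : ℕ) (H : ℝ) (T : MvPolynomial (Fin m) (𝓞 F)) (A : Fin m → Fin n → Fin n → MvPolynomial (Fin m) (𝓞 F))
    (Z W : Matrix (Fin n) (Fin n) (MvPowerSeries (Fin m) F)) : Prop where
  /-- the degree of `T` -/
  degT : T.totalDegree ≤ q
  /-- the height of `T` -/
  sizeT : ∀ ν, house (algebraMap (𝓞 F) F (T.coeff ν)) ≤ H
  /-- the degrees of the `A_i` -/
  degA : ∀ i a b, (A i a b).totalDegree ≤ q
  /-- the heights of the `A_i` -/
  sizeA : ∀ i a b ν, house (algebraMap (𝓞 F) F ((A i a b).coeff ν)) ≤ H
  /-- the differential equations -/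
  ode : ∀ i a b, toSeries T * partialD i (Z a b) = ∑ l, Z a l * toSeries (A i l b)
  /-- `W` is the inverse of `Z` -/
  inv : W * Z = 1
  /-- the growth of the coefficients -/
  size : ∀ a b (ν : Fin m →₀ ℕ), house (MvPowerSeries.coeff ν (Z a b)) ≤ H ^ (∑ i, ν i + 1)
  /-- the growth of the common denominators of the coefficients -/
  den : ∀ k : ℕ, ∃ d : ℕ, 0 < d ∧ (d : ℝ) ≤ H ^ (k + 1) ∧ ∀ a b (ν : Fin m →₀ ℕ), ∑ i, ν i ≤ k →
    IsIntegral ℤ ((d : F) * MvPowerSeries.coeff ν (Z a b)) ∧ IsIntegral ℤ ((d : F) * MvPowerSeries.coeff ν (W a b))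

/-- the power series `f(x a)` in the variable `x`, the restriction of `f` to the line through `0` with direction `a` -/
noncomputable def restrict (a : Fin m → 𝓞 F) (f : MvPowerSeries (Fin m) F) : PowerSeries F :=
  PowerSeries.mk fun k => ∑ ν ∈ (Finset.univ : Finset (Fin m)).finsuppAntidiag k,
    MvPowerSeries.coeff ν f * ∏ i, (algebraMap (𝓞 F) F (a i)) ^ ν i

/-- the value `φ(Z)(φ(a) / b)`, that is, the value at `x = 1 / b` of the restriction of `Z` to the line, for the embedding `φ` -/
noncomputable def value (φ : F →+* ℂ) (Z : Matrix (Fin n) (Fin n) (MvPowerSeries (Fin m) F)) (a : Fin m → 𝓞 F) (b : ℕ) :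
    Matrix (Fin n) (Fin n) ℂ :=
  Matrix.of fun i j => ∑' k : ℕ, φ (coeff k (restrict a (Z i j))) * (1 / (b : ℂ)) ^ k

/-- the restriction of `Z` to the line with direction `a`, over `ℂ` -/
noncomputable def onLine (φ : F →+* ℂ) (a : Fin m → 𝓞 F) (Z : Matrix (Fin n) (Fin n) (MvPowerSeries (Fin m) F)) :
    Matrix (Fin n) (Fin n) (PowerSeries ℂ) :=
  Z.map fun f => PowerSeries.map φ (restrict a f)

/-- `(X_1, …, X_N)` is an infinitesimal symmetry of the matrices `Y_1, …, Y_N` of power series: for all polynomial relations
`R(x, Y_1(x), …, Y_N(x)) = 0` over `ℂ[x]` the derivative of `R(x, (1 + ε X_1) Y_1(x), …, (1 + ε X_N) Y_N(x))` at `ε = 0` is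
zero. -/
def Symmetry (Y : Fin N → Matrix (Fin n) (Fin n) (PowerSeries ℂ)) (X : Fin N → Matrix (Fin n) (Fin n) ℂ) : Prop :=
  ∀ R : MvPolynomial (Fin N × Fin n × Fin n) (Polynomial ℂ),
    MvPolynomial.aeval (fun σ => Y σ.1 σ.2.1 σ.2.2) R = 0 →
    ∑ σ, MvPolynomial.aeval (fun σ => Y σ.1 σ.2.1 σ.2.2) (MvPolynomial.pderiv σ R) *
      ((X σ.1).map (PowerSeries.C (R := ℂ)) * Y σ.1) σ.2.1 σ.2.2 = 0

end several

/-- `y` satisfies an equation `P(ξ, y) = 0` where `P` has rational coefficients and total degree at most `e` and `P(ξ, Y)` is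
not the zero polynomial. All algebraic numbers of degree at most `e` and all polynomials of degree at most `e` in the `ξ_i` with
rational coefficients have this property. -/
def AlgebraicOver (e : ℕ) {u : ℕ} (ξ : Fin u → ℂ) (y : ℂ) : Prop :=
  ∃ P : MvPolynomial (Option (Fin u)) ℚ, P.totalDegree ≤ e ∧ MvPolynomial.aeval (fun o : Option (Fin u) => o.elim y ξ) P = 0 ∧
    ∃ y' : ℂ, MvPolynomial.aeval (fun o : Option (Fin u) => o.elim y' ξ) P ≠ 0

/-- numbers which are algebraic over `ℚ(ξ_1, …, ξ_u)` are algebraic of bounded degree -/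
theorem algebraicOver_of_isAlgebraic {u : ℕ} {ξ : Fin u → ℂ} {y : ℂ}
    (h : IsAlgebraic (IntermediateField.adjoin ℚ (Set.range ξ)) y) : ∃ e, AlgebraicOver e ξ y :=
  Pool.Agent.H885.algD_of_alg h

/-- the distance of `b` and `c` is larger than `2^(m+1) H (h + 2)` -/
def Far (m : ℕ) (H : ℝ) (h b c : ℕ) : Prop := 2 ^ (m + 1) * H * ((h : ℝ) + 2) < |(b : ℝ) - c|

/-- `y` is an algebraic number of degree at most `e` -/
def AlgebraicNumber (e : ℕ) (y : ℂ) : Prop := ∃ p : Polynomial ℚ, p ≠ 0 ∧ p.natDegree ≤ e ∧ Polynomial.aeval y p = 0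

/-- A tuple of `N` fibres: denominators `b_j` and numerators `a_j` of the points, embeddings `φ_j` of the number field, systems
`T_j, A_j`, their fundamental matrices `Z_j` and `W_j = Z_j⁻¹`, the period matrices `C_j` of the central fibres, the periods `θ`
of a torus of dimension `t`, its weights, and a set `ℱ` of polynomials in the entries of `N` matrices. -/
structure Fibres (F : Type) [Field F] [NumberField F] (m n N t : ℕ) where
  /-- the denominators of the points -/
  b : Fin N → ℕ
  /-- the numerators of the points -/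
  a : Fin N → Fin m → 𝓞 F
  /-- the embeddings -/
  φ : Fin N → F →+* ℂ
  /-- the denominators of the systems -/
  T : Fin N → MvPolynomial (Fin m) (𝓞 F)
  /-- the matrices of the systems -/
  A : Fin N → Fin m → Fin n → Fin n → MvPolynomial (Fin m) (𝓞 F)
  /-- the fundamental matrices -/
  Z : Fin N → Matrix (Fin n) (Fin n) (MvPowerSeries (Fin m) F)
  /-- their inverses -/
  W : Fin N → Matrix (Fin n) (Fin n) (MvPowerSeries (Fin m) F)
  /-- the periods of the central fibres -/
  C : Fin N → Matrix (Fin n) (Fin n) ℂ
  /-- the periods of the torus -/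
  θ : Fin t → ℂ
  /-- the weights of the torus -/
  v : Fin t → Fin N → ℕ
  /-- the known relations -/
  ℱ : Set (MvPolynomial (Fin N × Fin n × Fin n) ℂ)

section fibres
variable {F : Type} [Field F] [NumberField F]

/-- the matrices `(∏ τ_i ^ v_(i j)) C_j g_j Z_j(a_j / b_j)`; for `τ = 1` and `g = 1` these are the period matrices of the
fibres -/
noncomputable def Fibres.translate {m n N t : ℕ} (x : Fibres F m n N t) (τ : Fin t → ℂ) (g : Fin N → Matrix (Fin n) (Fin n) ℂ) :
    Fin N → Matrix (Fin n) (Fin n) ℂ :=
  fun j => (∏ i, τ i ^ x.v i j) • (x.C j * (g j * value (x.φ j) (x.Z j) (x.a j) (x.b j)))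

/-- the period matrices `C_j Z_j(a_j / b_j)` of the fibres -/
noncomputable def Fibres.periods {m n N t : ℕ} (x : Fibres F m n N t) : Fin N → Matrix (Fin n) (Fin n) ℂ :=
  fun j => x.C j * value (x.φ j) (x.Z j) (x.a j) (x.b j)

/-- `(X_1, …, X_N)` is an infinitesimal symmetry of the restrictions of the `Z_j` to the lines `F a_j`, separately for each
denominator `c` -/
def Fibres.IsSymmetry {m n N t : ℕ} (x : Fibres F m n N t) (X : Fin N → Matrix (Fin n) (Fin n) ℂ) : Prop := ∀ c : ℕ,
  Symmetry (fun j => if x.b j = c then onLine (x.φ j) (x.a j) (x.Z j) else 1) (fun j => if x.b j = c then X j else 0)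

/-- the group generated by the exponentials of the infinitesimal symmetries: the identity component of the differential
Galois group (it contains the inverses, since `-X` is a symmetry if `X` is one) -/
noncomputable def Fibres.group {m n N t : ℕ} (x : Fibres F m n N t) : Submonoid (Fin N → Matrix (Fin n) (Fin n) ℂ) :=
  Submonoid.closure {g | ∃ X, x.IsSymmetry X ∧ g = fun j => NormedSpace.exp (X j)}

/-- The polynomials `f` in `ℱ` have algebraic coefficients, they are homogeneous for the weights `v_i`, and `f(P)²` is the
product of an algebraic number and of the powers `θ_i ^ d_i`, where `d_i` is the weight of `f`. -/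
structure Known {n N t : ℕ} (θ : Fin t → ℂ) (v : Fin t → Fin N → ℕ) (ℱ : Set (MvPolynomial (Fin N × Fin n × Fin n) ℂ))
    (P : Fin N → Matrix (Fin n) (Fin n) ℂ) : Prop where
  /-- the coefficients are algebraic -/
  algebraic : ∀ f ∈ ℱ, ∀ ν, IsAlgebraic ℚ (f.coeff ν)
  /-- the weights and the values -/
  value : ∀ f ∈ ℱ, ∃ d : Fin t → ℕ, (∀ i, f.IsWeightedHomogeneous (fun σ => v i σ.1) (d i)) ∧
    ∃ q : ℂ, IsAlgebraic ℚ q ∧ (MvPolynomial.eval (fun σ => P σ.1 σ.2.1 σ.2.2) f) ^ 2 = (∏ i, θ i ^ d i) * q

/-- the tuple `Y` is tangent to the relations: for all `f` in `ℱ` the derivative of `f((1 + ε Y) P)` at `ε = 0` is zero -/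
def Tangent {n N : ℕ} (ℱ : Set (MvPolynomial (Fin N × Fin n × Fin n) ℂ)) (P Y : Fin N → Matrix (Fin n) (Fin n) ℂ) : Prop :=
  ∀ f ∈ ℱ, ∑ σ, MvPolynomial.eval (fun σ => P σ.1 σ.2.1 σ.2.2) (MvPolynomial.pderiv σ f) * (Y σ.1 * P σ.1) σ.2.1 σ.2.2 = 0

/-- The conditions for a tuple of fibres, see the description of the theorem. -/
structure Fibres.Valid {m n N t s : ℕ} (q M e : ℕ) (β : Fin s → ℂ) (H : ℝ) (h w b₀ : ℕ) (x : Fibres F m n N t) : Prop where
  /-- the denominators are in the window `[b₀, b₀ + w]` -/
  window : ∀ j, b₀ ≤ x.b j ∧ x.b j ≤ b₀ + w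
  /-- they are equal or far from each other -/
  far : ∀ i j, x.b i = x.b j ∨ Far m H h (x.b i) (x.b j)
  /-- at most `M` of them are different -/
  different : (Finset.univ.image x.b).card ≤ M
  /-- the numerators are bounded by `h` -/
  numerators : ∀ j i, house (algebraMap (𝓞 F) F (x.a j i)) ≤ h
  /-- the systems have degree at most `q`, height and growth constants at most `H` -/
  family : ∀ j, Family q H (x.T j) (x.A j) (x.Z j) (x.W j)
  /-- the lines are not contained in the polar loci -/
  pole : ∀ j, restrict (x.a j) (toSeries (x.T j)) ≠ 0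
  /-- the periods of the central fibres are algebraic over `ℚ(β)` -/
  central : ∀ j i i', AlgebraicOver e β (x.C j i i')
  /-- the period matrices are invertible; there is no condition if the torus is trivial -/
  invertible : 0 < t → ∀ j, IsUnit (x.periods j)
  /-- the periods of the torus are algebraically independent over `ℚ` -/
  independent : AlgebraicIndependent ℚ x.θ
  /-- the known relations -/
  known : Known x.θ x.v x.ℱ x.periods
  /-- the directions which are tangent to the known relations are conjugates of symmetries by the `C_j`; there is no condition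
  if the torus is trivial -/
  tangent : 0 < t → ∀ Y, Tangent x.ℱ x.periods Y → x.IsSymmetry fun j => (x.C j)⁻¹ * Y j * x.C j

/-- The tuple of fibres satisfies the strong form of the period conjecture, in bounded degree: all polynomials of degree at most
`δ` the coefficients of which are algebraic numbers of degree at most `e`, and which vanish at the periods, vanish on the
orbit of the product of the torus and the group. -/
def Fibres.Generic {m n N t : ℕ} (e δ : ℕ) (x : Fibres F m n N t) : Prop :=
  ∀ S : MvPolynomial (Fin N × Fin n × Fin n) ℂ, S.totalDegree ≤ δ → (∀ ν, AlgebraicNumber e (S.coeff ν)) →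
    MvPolynomial.eval (fun σ => x.periods σ.1 σ.2.1 σ.2.2) S = 0 →
    ∀ τ : Fin t → ℂ, (∀ i, τ i ≠ 0) → ∀ g ∈ x.group, MvPolynomial.eval (fun σ => x.translate τ g σ.1 σ.2.1 σ.2.2) S = 0

/-- the denominators of two tuples of fibres are far from each other -/
def Separated {m n N t : ℕ} (H : ℝ) (h : ℕ) (x y : Fibres F m n N t) : Prop := ∀ i j, Far m H h (x.b i) (y.b j)

/-- the denominators `b ≤ B` of the tuples of fibres over points `a_j / b` which satisfy the conditions (for the window
`{b}`) but are not generic -/
def exceptional (F : Type) [Field F] [NumberField F] (m n N t : ℕ) {s : ℕ} (q e δ : ℕ) (β : Fin s → ℂ) (H : ℝ) (h B : ℕ) : Set ℕ :=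
  {b | b ≤ B ∧ ∃ x : Fibres F m n N t, x.Valid q 1 e β H h 0 b ∧ (∀ j, x.b j = b) ∧ ¬ x.Generic e δ}

end fibres

/-! ## The relations of Riemann and Legendre -/

/-- `2 π i` is transcendental (Lindemann) -/
theorem pi_independent : AlgebraicIndependent ℚ (fun _ : Fin 1 => 2 * (Real.pi : ℂ) * Complex.I) := by
  rw [algebraicIndependent_unique_type_iff]
  intro h
  have h1 : IsAlgebraic ℚ Complex.I := by
    refine ⟨Polynomial.X ^ 2 + 1, ?_, by simp⟩
    intro h0
    have h2 := congrArg (Polynomial.eval 0) h0
    simp at h2
  have h2 : (Real.pi : ℂ) = (2 * (Real.pi : ℂ) * Complex.I) * (-Complex.I) * ((2 : ℚ) : ℂ)⁻¹ := by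
    linear_combination (Real.pi : ℂ) * Complex.I_sq
  refine Pool.Agent.H340R2.LW.transcendental_pi_complex ?_
  rw [h2]
  exact (h.mul h1.neg).mul (isAlgebraic_algebraMap (R := ℚ) (A := ℂ) 2).inv

/-- the entries of the matrices `X_jᵀ J_j X_j` -/
noncomputable def bilinear {n N : ℕ} (J : Fin N → Matrix (Fin n) (Fin n) ℂ) (j : Fin N) (a b : Fin n) :
    MvPolynomial (Fin N × Fin n × Fin n) ℂ :=
  ∑ c, ∑ d, MvPolynomial.C (J j c d) * (MvPolynomial.X (j, c, a) * MvPolynomial.X (j, d, b))

/-- the relations of Riemann and Legendre -/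
def legendre {n N : ℕ} (J : Fin N → Matrix (Fin n) (Fin n) ℂ) : Set (MvPolynomial (Fin N × Fin n × Fin n) ℂ) :=
  {f | ∃ j a b, f = bilinear J j a b}

theorem eval_bilinear {n N : ℕ} (J P : Fin N → Matrix (Fin n) (Fin n) ℂ) (j : Fin N) (a b : Fin n) :
    MvPolynomial.eval (fun σ => P σ.1 σ.2.1 σ.2.2) (bilinear J j a b) = ((P j)ᵀ * J j * P j) a b := by
  unfold bilinear
  rw [map_sum, Matrix.mul_assoc, Matrix.mul_apply]
  refine Finset.sum_congr rfl fun c _ => ?_
  rw [map_sum, Matrix.mul_apply, Finset.mul_sum]
  refine Finset.sum_congr rfl fun d _ => ?_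
  rw [map_mul, map_mul, MvPolynomial.eval_C, MvPolynomial.eval_X, MvPolynomial.eval_X, Matrix.transpose_apply]
  ring

/-- for polarized families the relations of Riemann and Legendre are known relations -/
theorem known_polarized {n N : ℕ} {J Q P : Fin N → Matrix (Fin n) (Fin n) ℂ} {w : Fin N → ℕ}
    (hJ : ∀ j a b, IsAlgebraic ℚ (J j a b)) (hQ : ∀ j a b, IsAlgebraic ℚ (Q j a b))
    (hP : ∀ j, (P j)ᵀ * J j * P j = (2 * (Real.pi : ℂ) * Complex.I) ^ w j • Q j) :
    Known (fun _ : Fin 1 => 2 * (Real.pi : ℂ) * Complex.I) (fun _ => w) (legendre J) P := by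
  classical
  refine ⟨?_, ?_⟩
  · rintro F ⟨j, a, b, rfl⟩ ν
    unfold bilinear
    rw [MvPolynomial.coeff_sum]
    refine mem_algebraicClosure_iff.1 ((algebraicClosure ℚ ℂ).sum_mem fun c _ => mem_algebraicClosure_iff.2 ?_)
    rw [MvPolynomial.coeff_sum]
    refine mem_algebraicClosure_iff.1 ((algebraicClosure ℚ ℂ).sum_mem fun d _ => mem_algebraicClosure_iff.2 ?_)
    rw [MvPolynomial.coeff_C_mul, MvPolynomial.coeff_X_mul', MvPolynomial.coeff_X]
    refine (hJ j c d).mul ?_
    split_ifs
    · exact isAlgebraic_one
    · exact isAlgebraic_zero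
    · exact isAlgebraic_zero
  · rintro F ⟨j, a, b, rfl⟩
    refine ⟨fun _ => 2 * w j, fun i => ?_, Q j a b ^ 2, (hQ j a b).pow 2, ?_⟩
    · unfold bilinear
      refine MvPolynomial.IsWeightedHomogeneous.sum _ _ _ fun c _ => ?_
      refine MvPolynomial.IsWeightedHomogeneous.sum _ _ _ fun d _ => ?_
      have h1 := (MvPolynomial.isWeightedHomogeneous_X ℂ (fun σ : Fin N × Fin n × Fin n => w σ.1) (j, c, a)).mul
        (MvPolynomial.isWeightedHomogeneous_X ℂ (fun σ : Fin N × Fin n × Fin n => w σ.1) (j, d, b))
      have h2 := (MvPolynomial.isWeightedHomogeneous_C (fun σ : Fin N × Fin n × Fin n => w σ.1) (J j c d)).mul h1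
      have h3 : 0 + (w j + w j) = 2 * w j := by ring
      rw [← h3]
      exact h2
    · rw [eval_bilinear, hP j, Matrix.smul_apply, smul_eq_mul, Fin.prod_univ_one]
      ring

/-- for polarized families the tangent directions are the infinitesimal isometries of the forms `J_j` -/
theorem tangent_polarized {n N : ℕ} {J P Y : Fin N → Matrix (Fin n) (Fin n) ℂ} (hP : ∀ j, IsUnit (P j).det)
    (hY : Tangent (legendre J) P Y) : ∀ j, (Y j)ᵀ * J j + J j * Y j = 0 := by
  classical
  intro j
  have h1 : (P j)ᵀ * ((Y j)ᵀ * J j + J j * Y j) * P j = 0 := by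
    refine Matrix.ext fun a b => ?_
    rw [Matrix.zero_apply, ← hY _ ⟨j, a, b, rfl⟩]
    have h2 : ∀ σ, MvPolynomial.pderiv σ (bilinear J j a b) = ∑ c, ∑ d, MvPolynomial.C (J j c d) *
        ((if (j, c, a) = σ then 1 else 0) * MvPolynomial.X (j, d, b) +
          MvPolynomial.X (j, c, a) * (if (j, d, b) = σ then 1 else 0)) := by
      intro σ
      unfold bilinear
      rw [map_sum]
      refine Finset.sum_congr rfl fun c _ => ?_
      rw [map_sum]
      refine Finset.sum_congr rfl fun d _ => ?_
      rw [MvPolynomial.pderiv_C_mul, MvPolynomial.pderiv_mul, MvPolynomial.pderiv_X, MvPolynomial.pderiv_X]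
      rw [Pi.single_apply, Pi.single_apply]
    have h3 : ∀ σ : Fin N × Fin n × Fin n, MvPolynomial.eval (fun σ => P σ.1 σ.2.1 σ.2.2) (MvPolynomial.pderiv σ (bilinear J j a b)) *
        (Y σ.1 * P σ.1) σ.2.1 σ.2.2 = ∑ c, ∑ d, J j c d * ((if (j, c, a) = σ then P j d b * (Y σ.1 * P σ.1) σ.2.1 σ.2.2 else 0) +
          (if (j, d, b) = σ then P j c a * (Y σ.1 * P σ.1) σ.2.1 σ.2.2 else 0)) := by
      intro σ
      rw [h2, map_sum, Finset.sum_mul]
      refine Finset.sum_congr rfl fun c _ => ?_
      rw [map_sum, Finset.sum_mul]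
      refine Finset.sum_congr rfl fun d _ => ?_
      rw [map_mul, map_add, map_mul, map_mul, MvPolynomial.eval_C, MvPolynomial.eval_X, MvPolynomial.eval_X]
      split_ifs <;> simp <;> ring
    rw [Finset.sum_congr rfl fun σ _ => h3 σ, Finset.sum_comm]
    rw [Matrix.mul_add, Matrix.add_mul, Matrix.add_apply]
    have h4 : ∀ c, ∑ σ : Fin N × Fin n × Fin n, ∑ d, J j c d * ((if (j, c, a) = σ then P j d b * (Y σ.1 * P σ.1) σ.2.1 σ.2.2 else 0) +
          (if (j, d, b) = σ then P j c a * (Y σ.1 * P σ.1) σ.2.1 σ.2.2 else 0)) =
        ∑ d, J j c d * (P j d b * (Y j * P j) c a + P j c a * (Y j * P j) d b) := by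
      intro c
      rw [Finset.sum_comm]
      refine Finset.sum_congr rfl fun d _ => ?_
      rw [← Finset.mul_sum, Finset.sum_add_distrib, Finset.sum_ite_eq, Finset.sum_ite_eq, if_pos (Finset.mem_univ _),
        if_pos (Finset.mem_univ _)]
    rw [Finset.sum_congr rfl fun c _ => h4 c]
    have h5 : (P j)ᵀ * ((Y j)ᵀ * J j) * P j = (Y j * P j)ᵀ * J j * P j := by
      rw [Matrix.transpose_mul]
      simp only [Matrix.mul_assoc]
    have h6 : (P j)ᵀ * (J j * Y j) * P j = (P j)ᵀ * J j * (Y j * P j) := by
      simp only [Matrix.mul_assoc]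
    rw [h5, h6, Matrix.mul_assoc, Matrix.mul_assoc, Matrix.mul_apply, Matrix.mul_apply, ← Finset.sum_add_distrib]
    refine Finset.sum_congr rfl fun c _ => ?_
    rw [Matrix.mul_apply, Matrix.mul_apply, Finset.mul_sum, Finset.mul_sum, ← Finset.sum_add_distrib]
    refine Finset.sum_congr rfl fun d _ => ?_
    rw [Matrix.transpose_apply, Matrix.transpose_apply]
    ring
  have hPt : IsUnit ((P j)ᵀ).det := by
    rw [Matrix.det_transpose]
    exact hP j
  have h2 := congrArg (fun M => ((P j)ᵀ)⁻¹ * M * (P j)⁻¹) h1
  simp only [Matrix.mul_zero, Matrix.zero_mul] at h2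
  rw [← h2, Matrix.mul_assoc (P j)ᵀ, Matrix.nonsing_inv_mul_cancel_left _ _ hPt, Matrix.mul_nonsing_inv_cancel_right _ _ (hP j)]

/-! ## Proofs -/

section proofs
variable {F : Type} [Field F] [NumberField F]

theorem gfam_of {m n q : ℕ} {H : ℝ} {T : MvPolynomial (Fin m) (𝓞 F)}
    {A : Fin m → Fin n → Fin n → MvPolynomial (Fin m) (𝓞 F)} {Z W : Matrix (Fin n) (Fin n) (MvPowerSeries (Fin m) F)}
    (h : Family q H T A Z W) : Pool.Agent.H885.GFam q H T A Z W :=
  ⟨h.degT, h.sizeT, h.degA, h.sizeA, h.ode, h.inv, h.size, h.den⟩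

theorem far_symm {m : ℕ} {H : ℝ} {h b c : ℕ} (hbc : Far m H h b c) : Far m H h c b := by
  unfold Far at hbc ⊢
  rw [abs_sub_comm]
  exact hbc

/-- `s + 1` separated tuples -/
theorem core (F : Type) [Field F] [NumberField F] (m n N q s t e δ : ℕ) : ∃ E : ℕ,
    ∀ (M : ℕ) (β : Fin s → ℂ) (H : ℝ) (h w b₀ : ℕ), 1 ≤ H →
    (2 * H * ((h : ℝ) + w + 2)) ^ E ≤ (b₀ : ℝ) → ∀ x : Fin (s + 1) → Fibres F m n N t, (∀ l, (x l).Valid q M e β H h w b₀) →
    (∀ l l', l ≠ l' → Separated H h (x l) (x l')) → ∃ l, (x l).Generic e δ := by
  classical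
  set e' : ℕ := max e (max 1 (Pool.Agent.H885.dg F)) with he'
  obtain ⟨E₀, hbase⟩ := Pool.Agent.H885.base_F F m n q
  obtain ⟨E, hE⟩ := Pool.Agent.H885.uniformFO F n N q s t 0 e' δ (s + 1) (Nat.lt_succ_self s)
    ((le_max_left _ _).trans (le_max_right _ _))
  obtain ⟨e₁, he₁⟩ := Pool.Agent.H885.pow_absorb (c := (2 : ℝ) * (1 + 2 ^ m)) (by
    have : (1 : ℝ) ≤ 2 ^ m := one_le_pow₀ (by norm_num)
    linarith)
  refine ⟨(e₁ + E₀ + 1) * E, fun M β H h w b₀ hH hbig xs hxs hsep => ?_⟩
  set x : ℝ := 2 * H * ((h : ℝ) + w + 2) with hx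
  have hh0 : (0 : ℝ) ≤ h := by positivity
  have hw0 : (0 : ℝ) ≤ w := by positivity
  have hx1 : (h : ℝ) + w + 2 ≤ x := by
    rw [hx]
    nlinarith
  have hx2 : 2 ≤ x := by linarith
  have hx3 : H * ((h : ℝ) + 2) ≤ x := by
    rw [hx]
    nlinarith
  have hx4 : 2 * H * ((h : ℝ) + 2) ≤ x := by
    rw [hx]
    nlinarith
  have hbig' : (2 * (2 * H * ((h : ℝ) + 2)) ^ E₀ * ((w : ℝ) + 2 ^ m * (H * ((h : ℝ) + 2)) + 2)) ^ E ≤ (b₀ : ℝ) := by
    refine le_trans ?_ hbig
    rw [pow_mul]
    refine pow_le_pow_left₀ (by positivity) ?_ E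
    have h1 : (2 * H * ((h : ℝ) + 2)) ^ E₀ ≤ x ^ E₀ := pow_le_pow_left₀ (by positivity) hx4 _
    have h2 : (w : ℝ) + 2 ^ m * (H * ((h : ℝ) + 2)) + 2 ≤ (1 + 2 ^ m) * x := by
      have h3 : (2 : ℝ) ^ m * (H * ((h : ℝ) + 2)) ≤ 2 ^ m * x := mul_le_mul_of_nonneg_left hx3 (by positivity)
      linarith
    calc 2 * (2 * H * ((h : ℝ) + 2)) ^ E₀ * ((w : ℝ) + 2 ^ m * (H * ((h : ℝ) + 2)) + 2) ≤
        2 * x ^ E₀ * ((1 + 2 ^ m) * x) := by
          refine mul_le_mul (by linarith) h2 (by positivity) (by positivity)
      _ = (2 * (1 + 2 ^ m)) * (x ^ E₀ * x) := by ring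
      _ ≤ x ^ e₁ * (x ^ E₀ * x) := mul_le_mul_of_nonneg_right (he₁ x hx2) (by positivity)
      _ = x ^ (e₁ + E₀ + 1) := by ring
  have hFar : ∀ b c : ℕ, Far m H h b c → 2 * (2 ^ m * (H * ((h : ℝ) + 2))) < |(b : ℝ) - c| := by
    intro b c hbc
    refine lt_of_eq_of_lt ?_ hbc
    ring
  have hH1 : (1 : ℝ) ≤ (2 * H * ((h : ℝ) + 2)) ^ E₀ := one_le_pow₀ (by nlinarith)
  have hfam := fun l j => hbase H hH _ _ _ _ (gfam_of ((hxs l).family j)) h hh0 _ ((hxs l).numerators j) ((hxs l).pole j)
  obtain ⟨l, hl⟩ := hE ⟨fun l => (xs l).φ, (2 * H * ((h : ℝ) + 2)) ^ E₀,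
      fun l j => Pool.Agent.H885.lineFP ((xs l).a j) ((xs l).T j),
      fun l j p p' => ∑ i, Polynomial.C ((xs l).a j i) * Pool.Agent.H885.lineFP ((xs l).a j) ((xs l).A j i p p'),
      fun l j => Pool.Agent.H885.lineFM ((xs l).a j) ((xs l).Z j), fun l j => Pool.Agent.H885.lineFM ((xs l).a j) ((xs l).W j),
      2 ^ m * (H * ((h : ℝ) + 2)), w, b₀, fun l => (xs l).b,
      fun l => Pool.Agent.H885.symF (xs l).b (xs l).φ fun j => Pool.Agent.H885.lineFM ((xs l).a j) ((xs l).Z j)⟩
    ⟨β, fun l => (xs l).C, fun l j => value ((xs l).φ j) ((xs l).Z j) ((xs l).a j) ((xs l).b j),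
      fun l => Pool.Agent.H885.symF (xs l).b (xs l).φ fun j => Pool.Agent.H885.lineFM ((xs l).a j) ((xs l).Z j),
      fun _ i => i.elim0, fun l => (xs l).θ, fun l => (xs l).v, fun l => (xs l).ℱ⟩
    ⟨hH1, hfam, by positivity, fun l j a' b' k =>
        Pool.Agent.H885.lineF_size hH (((hxs l).family j).size a' b') hh0 ((hxs l).numerators j) k,
      fun l j => (hxs l).window j, fun l j l' j' hne => by
        by_cases hll : l = l'
        · subst hll
          rcases (hxs l).far j j' with h2 | h2
          · exact absurd ⟨rfl, h2⟩ hne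
          · exact hFar _ _ h2
        · exact hFar _ _ (hsep l l' hll j j'), hbig', fun l X hX c => hX c⟩
    ⟨fun l j i i' => Pool.Agent.H885.AlgD.mono (le_max_left _ _) ((hxs l).central j i i'),
      fun ht l j => (Matrix.isUnit_iff_isUnit_det _).1 ((hxs l).invertible ht j),
      fun l => Pool.Agent.H885.symF_fam hH1 (hfam l) β ((le_max_right _ _).trans (le_max_right _ _)),
      fun l i => i.elim0, fun l => Pool.Agent.H885.ind_empty (hxs l).independent _,
      fun l => ⟨fun f hf ν => ((hxs l).known.algebraic f hf ν).tower_top _, fun f hf => by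
        obtain ⟨d, hd, c, hc, hc'⟩ := (hxs l).known.value f hf
        exact ⟨d, hd, c, hc.tower_top _, hc'⟩⟩, fun l ht Y hY c => by
        refine Pool.Agent.H885.Tg_iff.2 ((hxs l).tangent ht Y (fun f hf => ?_) c)
        rw [← Pool.Agent.H885.eval_DVT]
        exact hY f hf⟩ (fun l j => rfl) (fun l => rfl)
  refine ⟨l, fun S hS1 hS2 hS3 τ hτ g hg => ?_⟩
  have h3 := hl S hS1 (fun ν => Pool.Agent.H885.AlgN.toD (by
    obtain ⟨p, hp1, hp2, hp3⟩ := hS2 ν
    exact ⟨p, hp1, hp2.trans (le_max_left _ _), hp3⟩) _) hS3 g (by
      refine Submonoid.closure_mono ?_ hg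
      rintro g ⟨X, hX, rfl⟩
      exact ⟨X, fun c => Pool.Agent.H885.Tg_iff.2 (hX c), rfl⟩) _ (Pool.Agent.H885.tor_mem (xs l).v hτ)
  refine Eq.trans ?_ h3
  congr 2
  funext σ
  unfold Fibres.translate
  rw [Matrix.smul_mul, Matrix.one_mul]

/-- parts 1 and 2 -/
theorem parts (F : Type) [Field F] [NumberField F] (m n N q s t e δ : ℕ) : ∃ E : ℕ,
    ∀ (M : ℕ) (β : Fin s → ℂ) (H : ℝ) (h w b₀ : ℕ), 1 ≤ H → (2 * H * ((h : ℝ) + w + 2)) ^ E ≤ (b₀ : ℝ) →
    (∀ (L : ℕ) (x : Fin L → Fibres F m n N t), (∀ l, (x l).Valid q M e β H h w b₀) →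
      (∀ l l', l ≠ l' → Separated H h (x l) (x l')) → (∀ l, ¬ (x l).Generic e δ) → L ≤ s) ∧
    ∃ 𝓔 : Finset ℕ, 𝓔.card ≤ M * s ∧ ∀ x : Fibres F m n N t, x.Valid q M e β H h w b₀ →
      (∀ j, ∀ c ∈ 𝓔, Far m H h (x.b j) c) → x.Generic e δ := by
  classical
  obtain ⟨E, hE⟩ := core F m n N q s t e δ
  refine ⟨E, fun M β H h w b₀ hH hbig => ?_⟩
  have hPle : ∀ (L : ℕ) (x : Fin L → Fibres F m n N t), (∀ l, (x l).Valid q M e β H h w b₀) →
      (∀ l l', l ≠ l' → Separated H h (x l) (x l')) → (∀ l, ¬ (x l).Generic e δ) → L ≤ s := by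
    intro L x hx hsep hbad
    by_contra hcon
    obtain ⟨l, hl⟩ := hE M β H h w b₀ hH hbig (fun i => x (Fin.castLE (by omega) i)) (fun i => hx _)
      fun i i' hii => hsep _ _ fun h1 => hii (Fin.castLE_injective _ h1)
    exact hbad _ hl
  refine ⟨hPle, ?_⟩
  -- the exceptional denominators
  set P : ℕ → Prop := fun p => ∃ x : Fin p → Fibres F m n N t, (∀ l, (x l).Valid q M e β H h w b₀) ∧
    (∀ l l', l ≠ l' → Separated H h (x l) (x l')) ∧ ∀ l, ¬ (x l).Generic e δ with hP
  have hP0 : P 0 := ⟨fun l => l.elim0, fun l => l.elim0, fun l => l.elim0, fun l => l.elim0⟩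
  obtain ⟨p, hPp, hPp1⟩ : ∃ p, P p ∧ ¬ P (p + 1) := by
    by_contra hcon
    push Not at hcon
    have h1 : ∀ p, P p := by
      intro p
      induction p with
      | zero => exact hP0
      | succ p ih => exact hcon p ih
    obtain ⟨x, h2, h3, h4⟩ := h1 (s + 1)
    have := hPle _ x h2 h3 h4
    omega
  obtain ⟨x, hx, hsep, hbad⟩ := hPp
  have hple := hPle p x hx hsep hbad
  refine ⟨Finset.univ.biUnion fun l => Finset.univ.image (x l).b, ?_, fun y hy hyF => ?_⟩
  · refine Finset.card_biUnion_le.trans ?_
    refine (Finset.sum_le_card_nsmul _ _ M fun l _ => (hx l).different).trans ?_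
    rw [Finset.card_univ, Fintype.card_fin, smul_eq_mul, mul_comm]
    exact Nat.mul_le_mul_left _ hple
  · by_contra hybad
    apply hPp1
    refine ⟨Fin.cons y x, fun l => ?_, fun l l' hll i j => ?_, fun l => ?_⟩
    · refine Fin.cases ?_ (fun l => ?_) l
      · exact hy
      · exact hx l
    · have hin : ∀ l j, (x l).b j ∈ Finset.univ.biUnion fun l => Finset.univ.image (x l).b := fun l j =>
        Finset.mem_biUnion.2 ⟨l, Finset.mem_univ _, Finset.mem_image_of_mem _ (Finset.mem_univ _)⟩
      rcases Fin.eq_zero_or_eq_succ l with rfl | ⟨l, rfl⟩ <;> rcases Fin.eq_zero_or_eq_succ l' with rfl | ⟨l', rfl⟩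
      · exact absurd rfl hll
      · rw [Fin.cons_zero, Fin.cons_succ]
        exact hyF i _ (hin l' j)
      · rw [Fin.cons_zero, Fin.cons_succ]
        exact far_symm (hyF j _ (hin l i))
      · rw [Fin.cons_succ, Fin.cons_succ]
        exact hsep l l' (fun h1 => hll (by rw [h1])) i j
    · refine Fin.cases ?_ (fun l => ?_) l
      · exact hybad
      · exact hbad l

end proofs

/-- **The theorem.** Part 1: at most `s` of a family of separated tuples of fibres are not generic. Part 2: the exceptional
denominators in short windows. Part 3: the number of all exceptional denominators. -/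
theorem result (F : Type) [Field F] [NumberField F] (m n N q s t e δ : ℕ) :
    (∃ E : ℕ, ∀ (M : ℕ) (β : Fin s → ℂ) (H : ℝ) (h w b₀ : ℕ), 1 ≤ H → (2 * H * ((h : ℝ) + w + 2)) ^ E ≤ (b₀ : ℝ) →
    (∀ (L : ℕ) (x : Fin L → Fibres F m n N t), (∀ l, (x l).Valid q M e β H h w b₀) →
      (∀ l l', l ≠ l' → Separated H h (x l) (x l')) → (∀ l, ¬ (x l).Generic e δ) → L ≤ s) ∧
    ∃ 𝓔 : Finset ℕ, 𝓔.card ≤ M * s ∧ ∀ x : Fibres F m n N t, x.Valid q M e β H h w b₀ →
      (∀ j, ∀ c ∈ 𝓔, Far m H h (x.b j) c) → x.Generic e δ) ∧
    ∃ k : ℕ, 0 < k ∧ ∀ (β : Fin s → ℂ) (H : ℝ) (h : ℕ), 1 ≤ H → ∃ C : ℝ, ∀ B : ℕ, 0 < B →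
      ((exceptional F m n N t q e δ β H h B).ncard : ℝ) ^ k ≤ C * (B : ℝ) ^ (k - 1) := by
  classical
  obtain ⟨E, hE⟩ := parts F m n N q s t e δ
  refine ⟨⟨E, hE⟩, 2 * (E + 1), by omega, fun β H h hH => ?_⟩
  exact Pool.Agent.H885.count_windows (fun B => exceptional F m n N t q e δ β H h B) hH h m s E
    (fun B b hb => hb.1) fun w b₀ hbig => by
      obtain ⟨-, 𝓔, h1, h2⟩ := hE 1 β H h w b₀ hH hbig
      refine ⟨𝓔, by omega, fun B b hb hb1 hb2 => ?_⟩
      obtain ⟨x, hx1, hx2, hx3⟩ := hb.2
      by_contra hcon
      push Not at hcon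
      refine hx3 (h2 x ⟨fun j => ?_, hx1.far, hx1.different, hx1.numerators, hx1.family, hx1.pole, hx1.central,
        hx1.invertible, hx1.independent, hx1.known, hx1.tangent⟩ fun j c hc => ?_)
      · rw [hx2 j]
        exact ⟨hb1, hb2⟩
      · rw [hx2 j]
        exact hcon c hc

end Pool.Agent.Results.MP_caab05_ag.StrongFormInBoundedDegree
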